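import Pool.Agent.AFH.BND

/-!
# Adjoining an independent tuple; transfer between generic tuples (helper97)
-/

set_option autoImplicit false
set_option linter.unusedSectionVars false
set_option linter.unusedVariables false

namespace Pool.Agent.AFH

open Set

variable {L : Lg} {ι : Type} [Finite ι] {H H0 ψ θ : L.Fam ι}

/-- from `H ^ m ≤ K + ∏ χ i` to `H ^ m ≤ K + ψ ^ m` -/
theorem fam_sup (D : Dat L H H0 ψ θ) {m : ℕ} {χ : Fin m → L.Fam ι} (h0 : ∀ i, L.Is True (χ i))
    (h1 : ∀ i, L.Le (L.NE H) ψ (χ i)) (h2 : ∀ i, L.Le (L.NE H) (χ i) H0)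
    (h3 : ∀ i, ¬ L.Le (L.NE H) H0 (χ i)) {K : L.Fam (Fin m × ι)} (hK : L.Is False K)
    (hL : ∀ (N : L.K), L.NE H N → ∀ (u : Fin m → ι → L.car N), (∀ i, H N (u i)) →
      ∃ p : Fin m → ι → L.car N, (∀ i, χ i N (p i)) ∧ K N (fl u - fl p))
    (N : L.K) (hN : L.NE H N) (u : Fin m → ι → L.car N) (hu : ∀ i, H N (u i)) :
    ∃ p : Fin m → ι → L.car N, (∀ i, ψ N (p i)) ∧ K N (fl u - fl p) := by
  obtain ⟨q, hq, hKq⟩ := hL N hN u hu
  obtain ⟨K0, hK0, hd⟩ := hK.exists_dif
  have key := L.sup_fam D.hψ D.hom D.le D.hol h0 h1 h2 h3 hK0 (fun N hN u hu => by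
    obtain ⟨v, hv⟩ := hN
    obtain ⟨p1, hp1, hk1⟩ := hL N ⟨v, hv⟩ (fun _ => v) (fun _ => hv)
    obtain ⟨p2, hp2, hk2⟩ := hL N ⟨v, hv⟩ (fun i => v + u i) (fun i => D.shift hv (hu i))
    refine ⟨fun i => p2 i - p1 i, fun i => (h0 i).sb (hp2 i) (hp1 i), ?_⟩
    have h4 := (hd N _ _ hk1).mp hk2
    refine (iff_of_eq (congrArg (K0 N) ?_)).mp h4
    funext a
    show (v a.2 + u a.1 a.2 - p2 a.1 a.2) - (v a.2 - p1 a.1 a.2) =
      u a.1 a.2 - (p2 a.1 a.2 - p1 a.1 a.2)
    abel)
  obtain ⟨p, hp, hkp⟩ := key N hN q (fun i => h2 i N hN _ (hq i))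
  refine ⟨p, hp, ?_⟩
  rw [hd N _ _ hKq]
  refine (iff_of_eq (congrArg (K0 N) ?_)).mp hkp
  rw [sub_sub_sub_cancel_left]

/-- transport of a family of tuples along the last one -/
theorem snoc_fl {M : Type} {m : ℕ} (x : Fin m → ι → M) (y : ι → M) :
    fl (Fin.snoc (α := fun _ => ι → M) x y) ∘ (fun a : Fin m × ι => (a.1.castSucc, a.2)) = fl x ∧
    fl (Fin.snoc (α := fun _ => ι → M) x y) ∘ (fun a : ι => (Fin.last m, a)) = y := by
  constructor
  · funext a
    show Fin.snoc (α := fun _ => ι → M) x y a.1.castSucc a.2 = x a.1 a.2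
    rw [Fin.snoc_castSucc]
  · funext a
    show Fin.snoc (α := fun _ => ι → M) x y (Fin.last m) a = y a
    rw [Fin.snoc_last]

/-- If the members of the independent family `x` are dependent over `c` and `y` is independent over
`c`, then `(x, y)` is an independent family. -/
theorem adjoin (D : Dat L H H0 ψ θ) {M : L.K} {c : ι → L.car M} (hc : Gen L H θ M c) {m : ℕ}
    {x : Fin m → ι → L.car M} (hx : IFam L H ψ m M x) (hxc : ∀ i, ¬ IOv L H ψ θ M (x i) c)
    {y : ι → L.car M} (hy : H M y) (hyc : IOv L H ψ θ M y c) :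
    IFam L H ψ (m + 1) M (Fin.snoc (α := fun _ => ι → L.car M) x y) := by
  choose σ σ0 s using fun i => D.dep hc (hx.1 i) (hxc i)
  have him := im_of D s hx
  refine ⟨fun i => ?_, fun K hK hKxy => ?_⟩
  · induction i using Fin.lastCases with
    | last => rwa [Fin.snoc_last]
    | cast i =>
      rw [Fin.snoc_castSucc]
      exact hx.1 i
  -- the families `ψ' i` and `ψ`
  let ψ' : Fin m → L.Fam ι := fun i N u => H0 N u ∧ σ0 i N (Sum.elim u 0)
  let χ : Fin (m + 1) → L.Fam ι := Fin.snoc (α := fun _ => L.Fam ι) ψ' ψ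
  have hχc : ∀ i : Fin m, χ i.castSucc = ψ' i := fun i => Fin.snoc_castSucc _ _ _
  have hχl : χ (Fin.last m) = ψ := Fin.snoc_last _ _
  have c0 : ∀ i, L.Is True (χ i) := by
    intro i
    induction i using Fin.lastCases with
    | last => rw [hχl]; exact D.hψ
    | cast i => rw [hχc]; exact (s i).is_psi D
  have c1 : ∀ i, L.Le (L.NE H) ψ (χ i) := by
    intro i
    induction i using Fin.lastCases with
    | last => rw [hχl]; exact Lg.Le.refl ψ
    | cast i => rw [hχc]; exact (s i).psi_le D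
  have c2 : ∀ i, L.Le (L.NE H) (χ i) H0 := by
    intro i
    induction i using Fin.lastCases with
    | last => rw [hχl]; exact D.le
    | cast i => rw [hχc]; exact fun N hN u hu => hu.1
  have c3 : ∀ i, ¬ L.Le (L.NE H) H0 (χ i) := by
    intro i
    induction i using Fin.lastCases with
    | last => rw [hχl]; exact D.lt
    | cast i => rw [hχc]; exact (s i).psi_lt
  refine fam_sup D c0 c1 c2 c3 hK fun N hN u hu => ?_
  -- the relation `T = K + ∏ χ`
  let T : L.Fam (Fin (m + 1) × ι) := fun N z => ∃ p : Fin (m + 1) → ι → L.car N,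
    (∀ j, χ j N (p j)) ∧ K N (z - fl p)
  have hT : L.Is False T := by
    have h1 : ∀ i, L.Is False (χ i) := fun i => (c0 i).aff
    exact is_prodSum h1 hK
  -- `L' = {(u, w) : ∃ ū, (ū, u) ∈ T ∧ ∀ i, (ū i, w) ∈ σ i}`
  let L' : L.Fam (ι ⊕ ι) := fun N z => ∃ v : Fin m × ι → L.car N,
    T N (fun a => Fin.lastCases (motive := fun _ => ι → L.car N) (z ∘ Sum.inl)
      (fun i b => v (i, b)) a.1 a.2) ∧
    ∀ i, σ i N (Sum.elim (fun b => v (i, b)) (z ∘ Sum.inr))
  have hL' : L.Is False L' := by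
    have h1 : L.Is False (fun (N : L.K) (z : (ι ⊕ ι) ⊕ (Fin m × ι) → L.car N) =>
        T N (z ∘ (fun a : Fin (m + 1) × ι => Fin.lastCases
          (motive := fun _ => ι → (ι ⊕ ι) ⊕ (Fin m × ι)) (fun b => Sum.inl (Sum.inl b))
          (fun i b => Sum.inr (i, b)) a.1 a.2)) ∧
        ∀ i, σ i N (z ∘ (Sum.elim (fun b => Sum.inr (i, b)) (fun b => Sum.inl (Sum.inr b)) :
          ι ⊕ ι → (ι ⊕ ι) ⊕ (Fin m × ι)))) :=
      (hT.comap _).and (Lg.Is.allFin m (fun i N z => σ i N (z ∘ Sum.elim (fun b => Sum.inr (i, b))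
        (fun b => Sum.inl (Sum.inr b)))) fun i => (s i).aff.comap _)
    refine h1.ex.congr fun N z => exists_congr fun v => and_congr
      (iff_of_eq (congrArg (T N) ?_)) (forall_congr' fun i => iff_of_eq (congrArg (σ i N) ?_))
    · funext a
      obtain ⟨i, b⟩ := a
      induction i using Fin.lastCases with
      | last => simp [Fin.lastCases_last]
      | cast i => simp [Fin.lastCases_castSucc]
    · funext a
      rcases a with a | a <;> rfl
  have hmem : L' M (Sum.elim y c) := by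
    refine ⟨fl x, ⟨fun _ => 0, fun j => (c0 j).zero M, ?_⟩, fun i => (s i).mem⟩
    refine (iff_of_eq (congrArg (K M) ?_)).mp hKxy
    funext a
    obtain ⟨i, b⟩ := a
    induction i using Fin.lastCases with
    | last =>
      show Fin.snoc (α := fun _ => ι → L.car M) x y (Fin.last m) b = _ - (0 : L.car M)
      rw [Fin.snoc_last, sub_zero]
      simp [Fin.lastCases_last]
    | cast i =>
      show Fin.snoc (α := fun _ => ι → L.car M) x y i.castSucc b = _ - (0 : L.car M)
      rw [Fin.snoc_castSucc, sub_zero]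
      simp [Fin.lastCases_castSucc, fl]
  -- the given tuple
  have hul : H N (u (Fin.last m)) := hu _
  obtain ⟨w, hw⟩ : ∃ w : ι → L.car N, H N w ∧ ∀ i : Fin m,
      σ i N (Sum.elim (u i.castSucc) w) := by
    rcases Nat.eq_zero_or_pos m with hm | hm
    · subst hm
      exact ⟨u (Fin.last 0), hul, fun i => i.elim0⟩
    · obtain ⟨w, hw⟩ := him N hN (fun i => u i.castSucc) (fun i => hu _)
      exact ⟨w, ((s ⟨0, hm⟩).le N _ _ (hw ⟨0, hm⟩)).2, hw⟩
  obtain ⟨p, t, hp, ht, v, ⟨q, hq, hKq⟩, hv⟩ := hyc L' hL' hmem N (u (Fin.last m)) w hul hw.1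
  -- `ū i - v i ∈ ψ' i`
  have hvi : ∀ i : Fin m, ψ' i N (u i.castSucc - fun b => v (i, b)) := by
    intro i
    have h1 := (s i).stab N _ _ 0 t (hv i) (D.hψ.zero N) ht
    have h2 : σ i N (Sum.elim (fun b => v (i, b)) w) := by
      refine (iff_of_eq (congrArg (σ i N) ?_)).mp h1
      funext a
      rcases a with a | a
      · show v (i, a) + 0 = v (i, a)
        rw [add_zero]
      · show (w a - t a) + t a = w a
        rw [sub_add_cancel]
    have h3 := (s i).diff h2 (hw.2 i)
    rw [sub_self] at h3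
    exact ⟨D.diff ((s i).le N _ _ h2).1 (hu _), h3⟩
  refine ⟨fun j => Fin.lastCases (motive := fun _ => ι → L.car N) (p + q (Fin.last m))
    (fun i => (u i.castSucc - fun b => v (i, b)) + q i.castSucc) j, fun j => ?_, ?_⟩
  · induction j using Fin.lastCases with
    | last =>
      beta_reduce
      rw [Fin.lastCases_last, hχl]
      have h4 := hq (Fin.last m)
      rw [hχl] at h4
      exact D.hψ.add hp h4
    | cast i =>
      beta_reduce
      rw [Fin.lastCases_castSucc, hχc]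
      have h4 := hq i.castSucc
      rw [hχc] at h4
      exact ((s i).is_psi D).add (hvi i) h4
  · refine (iff_of_eq (congrArg (K N) ?_)).mp hKq
    funext a
    obtain ⟨j, b⟩ := a
    induction j using Fin.lastCases with
    | last =>
      show Fin.lastCases (motive := fun _ => ι → L.car N) _ _ (Fin.last m) b -
        q (Fin.last m) b = u (Fin.last m) b - Fin.lastCases (motive := fun _ => ι → L.car N)
          _ _ (Fin.last m) b
      rw [Fin.lastCases_last, Fin.lastCases_last]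
      show (u (Fin.last m) b - p b) - q (Fin.last m) b =
        u (Fin.last m) b - (p b + q (Fin.last m) b)
      abel
    | cast i =>
      show Fin.lastCases (motive := fun _ => ι → L.car N) _ _ i.castSucc b -
        q i.castSucc b = u i.castSucc b - Fin.lastCases (motive := fun _ => ι → L.car N)
          _ _ i.castSucc b
      rw [Fin.lastCases_castSucc, Fin.lastCases_castSucc]
      show v (i, b) - q i.castSucc b =
        u i.castSucc b - ((u i.castSucc b - v (i, b)) + q i.castSucc b)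
      abel

/-- Transfer of an independent family from one generic tuple to another. -/
theorem transfer (D : Dat L H H0 ψ θ) {M : L.K} {c c' : ι → L.car M} (hc : Gen L H θ M c)
    (hc' : Gen L H θ M c') {m : ℕ} {x : Fin m → ι → L.car M} (hx : IFam L H ψ m M x)
    (hxc : ∀ i, ¬ IOv L H ψ θ M (x i) c') :
    ∃ x' : Fin m → ι → L.car M, IFam L H ψ m M x' ∧ ∀ i, ¬ IOv L H ψ θ M (x' i) c := by
  choose σ σ0 s using fun i => D.dep hc' (hx.1 i) (hxc i)
  let ψ' : Fin m → L.Fam ι := fun i N u => H0 N u ∧ σ0 i N (Sum.elim u 0)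
  have c0 : ∀ i, L.Is True (ψ' i) := fun i => (s i).is_psi D
  have c1 : ∀ i, L.Le (L.NE H) ψ (ψ' i) := fun i => (s i).psi_le D
  have c2 : ∀ i, L.Le (L.NE H) (ψ' i) H0 := fun i N hN u hu => hu.1
  have c3 : ∀ i, ¬ L.Le (L.NE H) H0 (ψ' i) := fun i => (s i).psi_lt
  -- `{w : ∃ ū ∈ T, ∀ i, (ū i, w) ∈ σ i}` for a family `T`
  have hproj : ∀ T : L.Fam (Fin m × ι), L.Is False T → L.Is False
      (fun (N : L.K) (w : ι → L.car N) => ∃ v : Fin m × ι → L.car N, T N v ∧
        ∀ i, σ i N (Sum.elim (fun b => v (i, b)) w)) := by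
    intro T hT
    have h1 : L.Is False (fun (N : L.K) (z : ι ⊕ (Fin m × ι) → L.car N) =>
        T N (z ∘ Sum.inr) ∧ ∀ i, σ i N (z ∘ (Sum.elim (fun b => Sum.inr (i, b)) Sum.inl :
          ι ⊕ ι → ι ⊕ (Fin m × ι)))) :=
      (hT.comap _).and (Lg.Is.allFin m (fun i N z => σ i N (z ∘ Sum.elim (fun b => Sum.inr (i, b))
        Sum.inl)) fun i => (s i).aff.comap _)
    refine h1.ex.congr fun N w => exists_congr fun v => and_congr Iff.rfl
      (forall_congr' fun i => iff_of_eq (congrArg (σ i N) ?_))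
    funext a
    rcases a with a | a <;> rfl
  -- the new family
  obtain ⟨w0, ⟨v0, -, hv0⟩, hw0⟩ := hc'.2 _ (hproj _ (L.is_true False)) ⟨fl x, trivial,
    fun i => (s i).mem⟩ M c hc.1
  let x' : Fin m → ι → L.car M := fun i b => v0 (i, b)
  have hx' : ∀ i, σ i M (Sum.elim (x' i) c) := by
    intro i
    have h1 := (s i).stab M _ _ 0 (c - w0) (hv0 i) (D.hψ.zero M) hw0
    rwa [add_zero, add_sub_cancel] at h1
  refine ⟨x', ⟨fun i => ((s i).le M _ _ (hx' i)).1, fun K hK hKx => ?_⟩, fun i hi => ?_⟩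
  · -- independent
    let T : L.Fam (Fin m × ι) := fun N z => ∃ p : Fin m → ι → L.car N,
      (∀ j, ψ' j N (p j)) ∧ K N (z - fl p)
    have hT : L.Is False T := by
      have h1 : ∀ i, L.Is False (ψ' i) := fun i => (c0 i).aff
      exact is_prodSum h1 hK
    have hTx' : T M (fl x') := by
      refine ⟨fun _ => 0, fun j => (c0 j).zero M, ?_⟩
      refine (iff_of_eq (congrArg (K M) ?_)).mp hKx
      funext a
      show fl x' a = fl x' a - 0
      rw [sub_zero]
    obtain ⟨w1, ⟨v1, hv1, hv1'⟩, hw1⟩ := hc.2 _ (hproj T hT) ⟨fl x', hTx', hx'⟩ M c' hc'.1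
    have hTx : T M (fl x) := by
      obtain ⟨p, hp, hKp⟩ := hv1
      refine ⟨fun i => (x i - fun b => v1 (i, b)) + p i, fun i => ?_, ?_⟩
      · have h1 := (s i).stab M _ _ 0 (c' - w1) (hv1' i) (D.hψ.zero M) hw1
        rw [add_zero, add_sub_cancel] at h1
        have h2 := (s i).diff h1 (s i).mem
        rw [sub_self] at h2
        exact (c0 i).add ⟨D.diff ((s i).le M _ _ h1).1 (hx.1 i), h2⟩ (hp i)
      · refine (iff_of_eq (congrArg (K M) ?_)).mp hKp
        funext a
        show v1 a - p a.1 a.2 = x a.1 a.2 - ((x a.1 a.2 - v1 a) + p a.1 a.2)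
        abel
    refine fam_sup D c0 c1 c2 c3 hK fun N hN u hu => ?_
    obtain ⟨p, hp, q, hq, hKq⟩ := hx.2 T hT hTx N hN u hu
    refine ⟨fun i => p i + q i, fun i => ?_, ?_⟩
    · exact (c0 i).add (c1 i N hN _ (hp i)) (hq i)
    · refine (iff_of_eq (congrArg (K N) ?_)).mp hKq
      funext a
      show (u a.1 a.2 - p a.1 a.2) - q a.1 a.2 = u a.1 a.2 - (p a.1 a.2 + q a.1 a.2)
      abel
  · -- dependent over `c`
    refine (s i).prop fun N hN u hu => ?_
    obtain ⟨w, hw⟩ := hN
    have h1 : ∀ v : ι → L.car N, H N v → σ i N (Sum.elim v w) := by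
      intro v hv
      obtain ⟨p, t, hp, ht, h2⟩ := hi (σ i) (s i).aff (hx' i) N v w hv hw
      have h3 := (s i).stab N _ _ p t h2 hp ht
      rwa [sub_add_cancel, sub_add_cancel] at h3
    have h4 := (s i).diff (h1 w hw) (h1 _ (D.shift hw hu))
    rwa [add_sub_cancel_left, sub_self] at h4

/-- If `c` and `c'` are both generic and some `x` is independent over `c`, then some `x'` is
independent over `c'`. -/
theorem exists_iov (hT : L.T1P (L.NE H)) (D : Dat L H H0 ψ θ) {M : L.K} {c c' : ι → L.car M}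
    (hc : Gen L H θ M c) (hc' : Gen L H θ M c') {x : ι → L.car M} (hx : H M x)
    (hxc : IOv L H ψ θ M x c) : ∃ x' : ι → L.car M, H M x' ∧ IOv L H ψ θ M x' c' := by
  classical
  by_contra hcon
  push Not at hcon
  obtain ⟨n, hn⟩ := exists_bound hT D hc
  have key : ∀ m : ℕ, ∃ y : Fin m → ι → L.car M, IFam L H ψ m M y ∧
      ∀ i, ¬ IOv L H ψ θ M (y i) c := by
    intro m
    induction m with
    | zero =>
      refine ⟨fun i => i.elim0, ⟨fun i => i.elim0, fun K hK hKx N hN u hu => ?_⟩,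
        fun i => i.elim0⟩
      obtain ⟨w, hw⟩ := hN
      obtain ⟨v, hv, -⟩ := hc.2 _ (hK.comap (Prod.snd : Fin 0 × ι → ι)) (by
        refine (iff_of_eq (congrArg (K M) ?_)).mp hKx
        funext a
        exact a.1.elim0) N w hw
      refine ⟨fun i => i.elim0, fun i => i.elim0, ?_⟩
      refine (iff_of_eq (congrArg (K N) ?_)).mp hv
      funext a
      exact a.1.elim0
    | succ m ih =>
      obtain ⟨y, hy, hyc⟩ := ih
      have h1 := adjoin D hc hy hyc hx hxc
      exact transfer D hc hc' h1 (fun i => hcon _ (h1.1 i))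
  obtain ⟨y, hy, hyc⟩ := key (n + 1)
  exact absurd (hn (n + 1) y hy hyc) (Nat.not_succ_le_self n)

end Pool.Agent.AFH
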