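import Pool.Agent.AFH.DEP

/-!
# Independent families which are dependent over a generic tuple are bounded (helper97)
-/

set_option autoImplicit false
set_option linter.unusedSectionVars false
set_option linter.unusedVariables false

namespace Pool.Agent.AFH

open Set

variable {L : Lg} {ι : Type} [Finite ι] {H H0 ψ θ : L.Fam ι}

/-- the family `{ū : ∃ w, ∀ i, (ū i, w) ∈ σ i}` -/
def Im {m : ℕ} (σ : Fin m → L.Fam (ι ⊕ ι)) : L.Fam (Fin m × ι) :=
  fun N z => ∃ w : ι → L.car N, ∀ i, σ i N (Sum.elim (fun a => z (i, a)) w)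

theorem is_Im {m : ℕ} {σ : Fin m → L.Fam (ι ⊕ ι)} (h : ∀ i, L.Is False (σ i)) :
    L.Is False (Im σ) := by
  have h1 : L.Is False (fun (N : L.K) (z : (Fin m × ι) ⊕ ι → L.car N) =>
      ∀ i, σ i N (z ∘ (Sum.map (fun a => (i, a)) id : ι ⊕ ι → (Fin m × ι) ⊕ ι))) :=
    Lg.Is.allFin m (fun i N z => σ i N (z ∘ Sum.map (fun a => (i, a)) id))
      fun i => (h i).comap (Sum.map (fun a => (i, a)) id)
  refine h1.ex.congr fun N z => exists_congr fun w => forall_congr' fun i =>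
    iff_of_eq (congrArg (σ i N) ?_)
  funext a
  rcases a with a | a <;> rfl

/-- the members of `H ^ m` are in `Im` -/
theorem im_of {m : ℕ} {M : L.K} {x : Fin m → ι → L.car M} {c : ι → L.car M}
    {σ σ0 : Fin m → L.Fam (ι ⊕ ι)} (D : Dat L H H0 ψ θ)
    (s : ∀ i, Sgm L H H0 ψ θ M (x i) c (σ i) (σ0 i)) (hx : IFam L H ψ m M x) (N : L.K)
    (hN : L.NE H N) (u : Fin m → ι → L.car N) (hu : ∀ i, H N (u i)) :
    ∃ w : ι → L.car N, ∀ i, σ i N (Sum.elim (u i) w) := by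
  obtain ⟨p, hp, w, hw⟩ := hx.2 (Im σ) (is_Im fun i => (s i).aff) ⟨c, fun i => (s i).mem⟩ N hN u hu
  refine ⟨w, fun i => ?_⟩
  have h1 := (s i).stab N _ w (p i) 0 (hw i) (hp i) (D.hθ.zero N)
  rw [add_zero] at h1
  refine (iff_of_eq (congrArg (σ i N) ?_)).mp h1
  funext a
  rcases a with a | a
  · show (u i a - p i a) + p i a = u i a
    rw [sub_add_cancel]
  · rfl

theorem exists_bound (hT : L.T1P (L.NE H)) (D : Dat L H H0 ψ θ) {M : L.K} {c : ι → L.car M}
    (hc : Gen L H θ M c) : ∃ n : ℕ, ∀ (m : ℕ) (x : Fin m → ι → L.car M), IFam L H ψ m M x →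
      (∀ i, ¬ IOv L H ψ θ M (x i) c) → m ≤ n := by
  classical
  obtain ⟨n, hn⟩ := L.exists_goldie hT D.hom
  refine ⟨n, fun m x hx hxc => ?_⟩
  choose σ σ0 s using fun i => D.dep hc (hx.1 i) (hxc i)
  have him := im_of D s hx
  have hW : ∀ i, L.Is True (fun N (w : ι → L.car N) => H0 N w ∧ σ0 i N (Sum.elim 0 w)) := by
    intro i
    refine D.hom.and ?_
    refine ((s i).hom.sub (ι := ι) (Sum.elim 0 (fun i => Finsupp.single i (1 : ℤ)))).congr
      fun N u => iff_of_eq (congrArg (σ0 i N) ?_)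
    funext a
    rcases a with a | a
    · simp
    · simp
  let W : ℕ → L.Fam ι := fun j => if h : j < m then
    (fun N (w : ι → L.car N) => H0 N w ∧ σ0 ⟨j, h⟩ N (Sum.elim 0 w)) else H0
  have hWj : ∀ (j : ℕ) (h : j < m) (N : L.K) (w : ι → L.car N), W j N w ↔
      H0 N w ∧ σ0 ⟨j, h⟩ N (Sum.elim 0 w) := by
    intro j h N w
    show (if h : j < m then (fun N (w : ι → L.car N) => H0 N w ∧
      σ0 ⟨j, h⟩ N (Sum.elim 0 w)) else H0 : L.Fam ι) N w ↔ _
    rw [dif_pos h]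
  refine hn m W (fun j hj => (hW ⟨j, hj⟩).congr (hWj j hj))
    (fun j hj N hN w hw => ((hWj j hj N w).mp hw).1) (fun j hj hle => ?_) (fun j hj N hN w hw => ?_)
  · -- `W j` is not `≥ H0`
    let i : Fin m := ⟨j, hj⟩
    refine (s i).prop fun N hN u hu => ?_
    obtain ⟨v, hv⟩ := hN
    have hvu := D.shift hv hu
    have hK : L.Is False (fun (N : L.K) (z : Fin m × ι → L.car N) =>
        ∃ w : ι → L.car N, σ i N (Sum.elim (fun a => z (i, a)) w)) := by
      have h1 : L.Is False (fun (N : L.K) (z : (Fin m × ι) ⊕ ι → L.car N) =>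
          σ i N (z ∘ (Sum.map (fun a => (i, a)) id : ι ⊕ ι → (Fin m × ι) ⊕ ι))) :=
        (s i).aff.comap _
      refine h1.ex.congr fun N z => exists_congr fun w => iff_of_eq (congrArg (σ i N) ?_)
      funext a
      rcases a with a | a <;> rfl
    obtain ⟨p1, hp1, w1, hw1⟩ := hx.2 _ hK ⟨c, (s i).mem⟩ N ⟨v, hv⟩ (fun _ => v + u) (fun _ => hvu)
    obtain ⟨p2, hp2, w2, hw2⟩ := hx.2 _ hK ⟨c, (s i).mem⟩ N ⟨v, hv⟩ (fun _ => v) (fun _ => hv)
    have h1 := (s i).diff hw2 hw1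
    have h2 : H0 N (w1 - w2) := D.diff ((s i).le N _ _ hw2).2 ((s i).le N _ _ hw1).2
    have h3 := ((hWj j hj N _).mp (hle N ⟨v, hv⟩ _ h2)).2
    have h4 := (s i).hom.sb h1 h3
    have h5 := (s i).hom.add h4 ((s i).stab0 ⟨v, hv⟩ (D.hψ.sb (hp1 i) (hp2 i)) (D.hθ.zero N))
    refine (iff_of_eq (congrArg (σ0 i N) ?_)).mp h5
    funext a
    rcases a with a | a
    · show ((v a + u a) - p1 i a - (v a - p2 i a) - 0) + (p1 i a - p2 i a) = u a
      abel
    · show (w1 a - w2 a) - (w1 a - w2 a) + 0 = 0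
      abel
  · -- coindependence
    let i0 : Fin m := ⟨j, hj⟩
    obtain ⟨v, hv⟩ := hN
    obtain ⟨u1, hu1⟩ := (s i0).proj N v hv
    obtain ⟨u2, hu2⟩ := (s i0).proj N (v + w) (D.shift hv hw)
    have h1 : σ0 i0 N (Sum.elim (u2 - u1) w) := by
      have h2 := (s i0).diff hu1 hu2
      rwa [add_sub_cancel_left] at h2
    have hu : H0 N (u2 - u1) := D.diff ((s i0).le N _ _ hu1).1 ((s i0).le N _ _ hu2).1
    obtain ⟨w', hw'⟩ := him N ⟨v, hv⟩ (fun _ => v) (fun _ => hv)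
    obtain ⟨w'', hw''⟩ := him N ⟨v, hv⟩ (fun i => if i = i0 then v + (u2 - u1) else v) (fun i => by
      by_cases h : i = i0
      · rw [if_pos h]
        exact D.shift hv hu
      · rw [if_neg h]
        exact hv)
    have hy : H0 N (w'' - w') := D.diff ((s i0).le N _ _ (hw' i0)).2 ((s i0).le N _ _ (hw'' i0)).2
    refine ⟨w'' - w', ?_, hy, fun k hk => ?_⟩
    · refine (hWj j hj N _).mpr ⟨D.hom.sb hw hy, ?_⟩
      have h2 := (s i0).diff (hw' i0) (hw'' i0)
      rw [if_pos rfl, add_sub_cancel_left] at h2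
      have h3 := (s i0).hom.sb h1 h2
      rwa [elim_sub, sub_self] at h3
    · have hkm : k < m := hk.trans hj
      refine (hWj k hkm N _).mpr ⟨hy, ?_⟩
      have h2 := (s ⟨k, hkm⟩).diff (hw' ⟨k, hkm⟩) (hw'' ⟨k, hkm⟩)
      have hne : (⟨k, hkm⟩ : Fin m) ≠ i0 := fun h => (Nat.ne_of_lt hk) (congrArg Fin.val h)
      rwa [if_neg hne, sub_self] at h2

end Pool.Agent.AFH
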