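import Pool.Agent.AFH.SUP

/-!
# Generic and independent tuples, dependence in explicit form (helper97)
-/

set_option autoImplicit false
set_option linter.unusedSectionVars false
set_option linter.unusedVariables false

namespace Pool.Agent.AFH

open Set

variable {L : Lg} {ι : Type} [Finite ι]

/-- `H` affine with the group of differences `H0`, `ψ < H0` hollow, `θ ≤ H0` (on the models in which
`H` is not empty) -/
structure Dat (L : Lg) {ι : Type} (H H0 ψ θ : L.Fam ι) : Prop where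
  aff : L.Is False H
  hom : L.Is True H0
  dif : ∀ (M : L.K) (x y : ι → L.car M), H M x → (H M y ↔ H0 M (y - x))
  hψ : L.Is True ψ
  hθ : L.Is True θ
  le : L.Le (L.NE H) ψ H0
  le' : L.Le (L.NE H) θ H0
  lt : ¬ L.Le (L.NE H) H0 ψ
  hol : L.Hollow (L.NE H) ψ H0

/-- `c` is generic modulo `θ` in `H` -/
def Gen (L : Lg) {ι : Type} (H θ : L.Fam ι) (M : L.K) (c : ι → L.car M) : Prop :=
  H M c ∧ ∀ K : L.Fam ι, L.Is False K → K M c → ∀ (N : L.K) (u : ι → L.car N), H N u →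
    ∃ v : ι → L.car N, K N v ∧ θ N (u - v)

/-- `x` (modulo `ψ`) is independent over `c` (modulo `θ`) in `H` -/
def IOv (L : Lg) {ι : Type} (H ψ θ : L.Fam ι) (M : L.K) (x c : ι → L.car M) : Prop :=
  ∀ K : L.Fam (ι ⊕ ι), L.Is False K → K M (Sum.elim x c) → ∀ (N : L.K) (u w : ι → L.car N),
    H N u → H N w → ∃ p t : ι → L.car N, ψ N p ∧ θ N t ∧ K N (Sum.elim (u - p) (w - t))

/-- `(x i)` is an independent family in `H` modulo `ψ` -/
def IFam (L : Lg) {ι : Type} (H ψ : L.Fam ι) (m : ℕ) (M : L.K) (x : Fin m → ι → L.car M) : Prop :=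
  (∀ i, H M (x i)) ∧ ∀ K : L.Fam (Fin m × ι), L.Is False K → K M (fl x) →
    ∀ (N : L.K), L.NE H N → ∀ (u : Fin m → ι → L.car N), (∀ i, H N (u i)) →
      ∃ p : Fin m → ι → L.car N, (∀ i, ψ N (p i)) ∧ K N (fl u - fl p)

/-- an explicit dependence between `x` and `c` -/
structure Sgm (L : Lg) {ι : Type} (H H0 ψ θ : L.Fam ι) (M : L.K) (x c : ι → L.car M)
    (σ σ0 : L.Fam (ι ⊕ ι)) : Prop where
  aff : L.Is False σ
  hom : L.Is True σ0
  dif : ∀ (N : L.K) (z z' : ι ⊕ ι → L.car N), σ N z → (σ N z' ↔ σ0 N (z' - z))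
  le : ∀ (N : L.K) (u w : ι → L.car N), σ N (Sum.elim u w) → H N u ∧ H N w
  stab : ∀ (N : L.K) (u w p t : ι → L.car N), σ N (Sum.elim u w) → ψ N p → θ N t →
    σ N (Sum.elim (u + p) (w + t))
  proj : ∀ (N : L.K) (w : ι → L.car N), H N w → ∃ u : ι → L.car N, σ N (Sum.elim u w)
  mem : σ M (Sum.elim x c)
  prop : ¬ ∀ N : L.K, L.NE H N → ∀ u : ι → L.car N, H0 N u → σ0 N (Sum.elim u 0)

theorem elim_sub {M : Type} [AddCommGroup M] {α β : Type} (a b : α → M) (c d : β → M) :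
    Sum.elim a c - Sum.elim b d = Sum.elim (a - b) (c - d) := by
  funext i
  rcases i with i | i <;> rfl

theorem elim_add {M : Type} [AddCommGroup M] {α β : Type} (a b : α → M) (c d : β → M) :
    Sum.elim a c + Sum.elim b d = Sum.elim (a + b) (c + d) := by
  funext i
  rcases i with i | i <;> rfl

namespace Dat

variable {H H0 ψ θ : L.Fam ι}

theorem shift (D : Dat L H H0 ψ θ) {M : L.K} {x p : ι → L.car M} (hx : H M x) (hp : H0 M p) :
    H M (x + p) := by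
  rw [D.dif M x _ hx, add_sub_cancel_left]
  exact hp

theorem diff (D : Dat L H H0 ψ θ) {M : L.K} {x y : ι → L.car M} (hx : H M x) (hy : H M y) :
    H0 M (y - x) := (D.dif M x y hx).mp hy

/-- Dependence in explicit form. -/
theorem dep (D : Dat L H H0 ψ θ) {M : L.K} {x c : ι → L.car M} (hc : Gen L H θ M c)
    (hx : H M x) (h : ¬ IOv L H ψ θ M x c) : ∃ σ σ0 : L.Fam (ι ⊕ ι), Sgm L H H0 ψ θ M x c σ σ0 := by
  unfold IOv at h
  push Not at h
  obtain ⟨K, hK, hxc, N', u', w', hu', hw', hno⟩ := h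
  let σ : L.Fam (ι ⊕ ι) := fun N z => (H N (z ∘ Sum.inl) ∧ H N (z ∘ Sum.inr)) ∧
    ∃ y : ι ⊕ ι → L.car N, (ψ N (y ∘ Sum.inl) ∧ θ N (y ∘ Sum.inr)) ∧ K N (z - y)
  have hσ : L.Is False σ := ((D.aff.comap Sum.inl).and (D.aff.comap Sum.inr)).and
    (((D.hψ.aff.comap Sum.inl).and (D.hθ.aff.comap Sum.inr)).sum hK)
  have hiff : ∀ (N : L.K) (u w : ι → L.car N), σ N (Sum.elim u w) ↔ H N u ∧ H N w ∧
      ∃ p t : ι → L.car N, ψ N p ∧ θ N t ∧ K N (Sum.elim (u - p) (w - t)) := by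
    intro N u w
    constructor
    · rintro ⟨⟨h1, h2⟩, y, ⟨h3, h4⟩, h5⟩
      refine ⟨h1, h2, y ∘ Sum.inl, y ∘ Sum.inr, h3, h4, ?_⟩
      have e : Sum.elim u w - y = Sum.elim (u - y ∘ Sum.inl) (w - y ∘ Sum.inr) := by
        funext i
        rcases i with i | i <;> rfl
      rwa [e] at h5
    · rintro ⟨h1, h2, p, t, h3, h4, h5⟩
      refine ⟨⟨h1, h2⟩, Sum.elim p t, ⟨h3, h4⟩, ?_⟩
      rwa [elim_sub]
  obtain ⟨σ0, h0, hd⟩ := hσ.exists_dif
  have hstab : ∀ (N : L.K) (u w p t : ι → L.car N), σ N (Sum.elim u w) → ψ N p → θ N t →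
      σ N (Sum.elim (u + p) (w + t)) := by
    intro N u w p t h hp ht
    obtain ⟨h1, h2, p', t', h3, h4, h5⟩ := (hiff N u w).mp h
    have hN : L.NE H N := ⟨u, h1⟩
    refine (hiff N _ _).mpr ⟨D.shift h1 (D.le N hN p hp), D.shift h2 (D.le' N hN t ht),
      p' + p, t' + t, D.hψ.add h3 hp, D.hθ.add h4 ht, ?_⟩
    rwa [add_sub_add_right_eq_sub, add_sub_add_right_eq_sub]
  have hmem : σ M (Sum.elim x c) := by
    refine (hiff M x c).mpr ⟨hx, hc.1, 0, 0, D.hψ.zero M, D.hθ.zero M, ?_⟩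
    rwa [sub_zero, sub_zero]
  have hproj : ∀ (N : L.K) (w : ι → L.car N), H N w → ∃ u : ι → L.car N,
      σ N (Sum.elim u w) := by
    intro N w hw
    have hK' : L.Is False (fun (N : L.K) (w : ι → L.car N) => ∃ u : ι → L.car N,
        σ N (Sum.elim u w)) := by
      refine ((hσ.comap (Sum.swap : ι ⊕ ι → ι ⊕ ι)).ex).congr fun N w => ?_
      refine exists_congr fun u => iff_of_eq (congrArg (σ N) ?_)
      funext i
      rcases i with i | i <;> rfl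
    obtain ⟨v, ⟨u, hu⟩, hv⟩ := hc.2 _ hK' ⟨x, hmem⟩ N w hw
    refine ⟨u + 0, ?_⟩
    have h1 := hstab N u v 0 (w - v) hu (D.hψ.zero N) hv
    rwa [add_sub_cancel] at h1
  refine ⟨σ, σ0, hσ, h0, hd, fun N u w h => ⟨((hiff N u w).mp h).1, ((hiff N u w).mp h).2.1⟩,
    hstab, hproj, hmem, fun hall => ?_⟩
  obtain ⟨u0, hu0⟩ := hproj N' w' hw'
  have h1 : H N' u0 := ((hiff N' u0 w').mp hu0).1
  have h2 := hall N' ⟨u', hu'⟩ (u' - u0) (D.diff h1 hu')
  have h3 : σ N' (Sum.elim u' w') := by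
    rw [hd N' (Sum.elim u0 w') _ hu0, elim_sub, sub_self]
    exact h2
  obtain ⟨-, -, p, t, h4, h5, h6⟩ := (hiff N' u' w').mp h3
  exact hno p t h4 h5 h6

end Dat

namespace Sgm

variable {H H0 ψ θ : L.Fam ι} {M : L.K} {x c : ι → L.car M} {σ σ0 : L.Fam (ι ⊕ ι)}

theorem diff (s : Sgm L H H0 ψ θ M x c σ σ0) {N : L.K} {u w u' w' : ι → L.car N}
    (h : σ N (Sum.elim u w)) (h' : σ N (Sum.elim u' w')) :
    σ0 N (Sum.elim (u' - u) (w' - w)) := by
  rw [← elim_sub]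
  exact (s.dif N _ _ h).mp h'

theorem shift (s : Sgm L H H0 ψ θ M x c σ σ0) {N : L.K} {u w p t : ι → L.car N}
    (h : σ N (Sum.elim u w)) (h' : σ0 N (Sum.elim p t)) :
    σ N (Sum.elim (u + p) (w + t)) := by
  rw [s.dif N _ _ h, elim_sub, add_sub_cancel_left, add_sub_cancel_left]
  exact h'

/-- `ψ × θ ≤ σ0` -/
theorem stab0 (s : Sgm L H H0 ψ θ M x c σ σ0) {N : L.K} (hN : L.NE H N) {p t : ι → L.car N}
    (hp : ψ N p) (ht : θ N t) : σ0 N (Sum.elim p t) := by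
  obtain ⟨w, hw⟩ := hN
  obtain ⟨u, hu⟩ := s.proj N w hw
  have h1 := s.diff hu (s.stab N u w p t hu hp ht)
  rwa [add_sub_cancel_left, add_sub_cancel_left] at h1

/-- `ψ' = {u ∈ H0 : (u, 0) ∈ σ0}` -/
theorem is_psi (D : Dat L H H0 ψ θ) (s : Sgm L H H0 ψ θ M x c σ σ0) :
    L.Is True (fun N (u : ι → L.car N) => H0 N u ∧ σ0 N (Sum.elim u 0)) := by
  refine D.hom.and ?_
  refine (s.hom.sub (ι := ι) (Sum.elim (fun i => Finsupp.single i (1 : ℤ)) 0)).congr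
    fun N u => iff_of_eq (congrArg (σ0 N) ?_)
  funext i
  rcases i with i | i
  · simp
  · simp

theorem psi_le (D : Dat L H H0 ψ θ) (s : Sgm L H H0 ψ θ M x c σ σ0) :
    L.Le (L.NE H) ψ (fun N (u : ι → L.car N) => H0 N u ∧ σ0 N (Sum.elim u 0)) :=
  fun N hN u hu => ⟨D.le N hN u hu, s.stab0 hN hu (D.hθ.zero N)⟩

theorem psi_lt (s : Sgm L H H0 ψ θ M x c σ σ0) :
    ¬ L.Le (L.NE H) H0 (fun N (u : ι → L.car N) => H0 N u ∧ σ0 N (Sum.elim u 0)) :=
  fun h => s.prop fun N hN u hu => (h N hN u hu).2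

end Sgm

end Pool.Agent.AFH
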