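import Mathlib

/-!
# Affine level-one logic on a class of abelian groups (helper97)

`Lg` is a class `K` of models `M` with abelian groups `car M`, a set `A ι` of formulas for each finite
type `ι` of variables; every formula defines in every model a coset of a subgroup of `ι → car M`, or the
empty set; `hom` distinguishes the homogeneous formulas, which define subgroups. All arguments are
semantic: a family `F : L.Fam ι` of relations is `L.Is h F` if it is given by a formula (homogeneous if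
`h` holds).
-/

set_option autoImplicit false
set_option linter.unusedSectionVars false
set_option linter.unusedVariables false

namespace Pool.Agent.AFH

open Set

/-- affine level-one logic on a class of abelian groups -/
structure Lg : Type 2 where
  /-- models -/
  K : Type 1
  /-- universes of the models -/
  car : K → Type
  /-- the group structures -/
  [grp : ∀ M, AddCommGroup (car M)]
  /-- formulas -/
  A : Type → Type
  /-- satisfaction -/
  S : ∀ {ι : Type}, A ι → ∀ M : K, (ι → car M) → Prop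
  /-- homogeneous formulas -/
  hom : ∀ {ι : Type}, A ι → Prop
  cos : ∀ {ι : Type} [Finite ι] (D : A ι) (M : K) (x y z : ι → car M), S D M x → S D M y →
    S D M z → S D M (x - y + z)
  zero : ∀ {ι : Type} [Finite ι] (D : A ι) (M : K), hom D → S D M 0
  dif : ∀ {ι : Type} [Finite ι] (D : A ι), ∃ E : A ι, hom E ∧ ∀ (M : K) (x y : ι → car M),
    S D M x → (S D M y ↔ S E M (y - x))
  tru : ∀ (ι : Type) [Finite ι], ∃ D : A ι, hom D ∧ ∀ (M : K) (x : ι → car M), S D M x
  eqz : ∀ (ι : Type) [Finite ι], ∃ D : A ι, hom D ∧ ∀ (M : K) (x : ι → car M), S D M x ↔ x = 0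
  and : ∀ {ι : Type} [Finite ι] (D E : A ι), ∃ F : A ι, (hom D → hom E → hom F) ∧
    ∀ (M : K) (x : ι → car M), S F M x ↔ S D M x ∧ S E M x
  ex : ∀ {ι κ : Type} [Finite ι] [Finite κ] (D : A (ι ⊕ κ)), ∃ F : A ι, (hom D → hom F) ∧
    ∀ (M : K) (x : ι → car M), S F M x ↔ ∃ y : κ → car M, S D M (Sum.elim x y)
  sub : ∀ {ι κ : Type} [Finite ι] [Finite κ] (D : A κ) (f : κ → (ι →₀ ℤ)), ∃ F : A ι,
    (hom D → hom F) ∧ ∀ (M : K) (x : ι → car M), S F M x ↔
      S D M (fun k => Finsupp.linearCombination ℤ x (f k))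

attribute [instance] Lg.grp

variable (L : Lg)

/-- families of relations -/
abbrev Lg.Fam (ι : Type) : Type 1 := ∀ M : L.K, (ι → L.car M) → Prop

/-- the family `F` is given by a formula, which is homogeneous if `h` holds -/
def Lg.Is {ι : Type} (h : Prop) (F : L.Fam ι) : Prop :=
  ∃ D : L.A ι, (h → L.hom D) ∧ ∀ (M : L.K) (x : ι → L.car M), F M x ↔ L.S D M x

/-- inclusion in the models with the property `P` -/
def Lg.Le {ι : Type} (P : L.K → Prop) (F G : L.Fam ι) : Prop :=
  ∀ M : L.K, P M → ∀ x : ι → L.car M, F M x → G M x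

/-- inclusion in a sum -/
def Lg.LeSum {ι : Type} (P : L.K → Prop) (D A B : L.Fam ι) : Prop :=
  ∀ M : L.K, P M → ∀ x : ι → L.car M, D M x → ∃ y : ι → L.car M, A M y ∧ B M (x - y)

/-- the models in which `E` is not empty -/
def Lg.NE {ι : Type} (E : L.Fam ι) : L.K → Prop := fun M => ∃ x : ι → L.car M, E M x

/-- No infinite coindependent sequence of homogeneous formulas on the models in which a given
affine formula is not empty. -/
def Lg.T1 : Prop :=
  ∀ (α ι : Type) [Finite α] [Finite ι] (E : L.Fam α), L.Is False E → ∀ (D : L.Fam ι)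
    (W : ℕ → L.Fam ι), L.Is True D → (∀ j, L.Is True (W j)) → (∀ j, L.Le (L.NE E) (W j) D) →
    (∀ j, ¬ L.Le (L.NE E) D (W j)) →
    ¬ ∀ (j : ℕ) (M : L.K), L.NE E M → ∀ x : ι → L.car M, D M x →
        ∃ y : ι → L.car M, W j M (x - y) ∧ D M y ∧ ∀ i < j, W i M y

/-- `x` is exact for `V`: `V` is the least formula which `x` satisfies -/
def Lg.Exact {ι : Type} (V : L.Fam ι) (M : L.K) (x : ι → L.car M) : Prop :=
  L.Is False V ∧ V M x ∧ ∀ W : L.Fam ι, L.Is False W → W M x → ∀ (N : L.K) (y : ι → L.car N),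
    V N y → W N y

/-- every finite tuple is exact for some formula -/
def Lg.UML : Prop :=
  ∀ (M : L.K) (ι : Type) [Finite ι] (a : ι → L.car M), ∃ V : L.Fam ι, L.Exact V M a

section

variable {L} {ι κ : Type}

theorem Lg.Is.mono {h h' : Prop} {F : L.Fam ι} (hF : L.Is h F) (hh : h' → h) : L.Is h' F := by
  obtain ⟨D, h1, h2⟩ := hF
  exact ⟨D, fun h3 => h1 (hh h3), h2⟩

/-- homogeneous families are affine -/
theorem Lg.Is.aff {h : Prop} {F : L.Fam ι} (hF : L.Is h F) : L.Is False F :=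
  hF.mono False.elim

theorem Lg.Is.congr {h : Prop} {F G : L.Fam ι} (hF : L.Is h F)
    (e : ∀ (M : L.K) (x : ι → L.car M), G M x ↔ F M x) : L.Is h G := by
  obtain ⟨D, h1, h2⟩ := hF
  exact ⟨D, h1, fun M x => (e M x).trans (h2 M x)⟩

theorem Lg.is_true (h : Prop) [Finite ι] : L.Is h (fun M (x : ι → L.car M) => True) := by
  obtain ⟨D, h1, h2⟩ := L.tru ι
  exact ⟨D, fun _ => h1, fun M x => ⟨fun _ => h2 M x, fun _ => trivial⟩⟩

theorem Lg.is_zero (h : Prop) [Finite ι] : L.Is h (fun M (x : ι → L.car M) => x = 0) := by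
  obtain ⟨D, h1, h2⟩ := L.eqz ι
  exact ⟨D, fun _ => h1, fun M x => (h2 M x).symm⟩

theorem Lg.Is.and {h : Prop} [Finite ι] {F G : L.Fam ι} (hF : L.Is h F) (hG : L.Is h G) :
    L.Is h (fun M (x : ι → L.car M) => F M x ∧ G M x) := by
  obtain ⟨D, h1, h2⟩ := hF
  obtain ⟨E, h3, h4⟩ := hG
  obtain ⟨C, h5, h6⟩ := L.and D E
  exact ⟨C, fun h0 => h5 (h1 h0) (h3 h0), fun M x =>
    (and_congr (h2 M x) (h4 M x)).trans (h6 M x).symm⟩

theorem Lg.Is.ex {h : Prop} [Finite ι] [Finite κ] {F : L.Fam (ι ⊕ κ)} (hF : L.Is h F) :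
    L.Is h (fun M (x : ι → L.car M) => ∃ y : κ → L.car M, F M (Sum.elim x y)) := by
  obtain ⟨D, h1, h2⟩ := hF
  obtain ⟨C, h5, h6⟩ := L.ex D
  exact ⟨C, fun h0 => h5 (h1 h0), fun M x =>
    (exists_congr fun y => h2 M _).trans (h6 M x).symm⟩

theorem Lg.Is.sub {h : Prop} [Finite ι] [Finite κ] {F : L.Fam κ} (hF : L.Is h F)
    (f : κ → (ι →₀ ℤ)) :
    L.Is h (fun M (x : ι → L.car M) => F M (fun k => Finsupp.linearCombination ℤ x (f k))) := by
  obtain ⟨D, h1, h2⟩ := hF
  obtain ⟨C, h5, h6⟩ := L.sub D f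
  exact ⟨C, fun h0 => h5 (h1 h0), fun M x => (h2 M _).trans (h6 M x).symm⟩

/-- renaming of variables -/
theorem Lg.Is.comap {h : Prop} [Finite ι] [Finite κ] {F : L.Fam κ} (hF : L.Is h F) (f : κ → ι) :
    L.Is h (fun M (x : ι → L.car M) => F M (x ∘ f)) := by
  refine (hF.sub (fun k => Finsupp.single (f k) (1 : ℤ))).congr fun M x => ?_
  have e : (fun k => Finsupp.linearCombination ℤ x (Finsupp.single (f k) (1 : ℤ))) = x ∘ f := by
    funext k
    rw [Finsupp.linearCombination_single, one_smul]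
    rfl
  rw [e]

/-- difference of two tuples of variables -/
theorem Lg.Is.comapSub {h : Prop} [Finite ι] [Finite κ] {F : L.Fam κ} (hF : L.Is h F)
    (f g : κ → ι) : L.Is h (fun M (x : ι → L.car M) => F M (x ∘ f - x ∘ g)) := by
  refine (hF.sub (fun k => Finsupp.single (f k) (1 : ℤ) - Finsupp.single (g k) (1 : ℤ))).congr
    fun M x => ?_
  have e : (fun k => Finsupp.linearCombination ℤ x
      (Finsupp.single (f k) (1 : ℤ) - Finsupp.single (g k) (1 : ℤ))) = x ∘ f - x ∘ g := by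
    funext k
    rw [map_sub, Finsupp.linearCombination_single, Finsupp.linearCombination_single, one_smul,
      one_smul]
    rfl
  rw [e]

/-- sums -/
theorem Lg.Is.sum {h : Prop} [Finite ι] {F G : L.Fam ι} (hF : L.Is h F) (hG : L.Is h G) :
    L.Is h (fun M (x : ι → L.car M) => ∃ y : ι → L.car M, F M y ∧ G M (x - y)) := by
  have h1 := (hF.comap (Sum.inr : ι → ι ⊕ ι)).and (hG.comapSub (Sum.inl : ι → ι ⊕ ι) Sum.inr)
  exact h1.ex

/-- conjunctions over `Fin n` -/
theorem Lg.Is.allFin {h : Prop} [Finite ι] (n : ℕ) : ∀ (F : Fin n → L.Fam ι),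
    (∀ j, L.Is h (F j)) → L.Is h (fun M (x : ι → L.car M) => ∀ j, F j M x) := by
  induction n with
  | zero =>
    intro F hF
    exact (L.is_true h).congr fun M x => ⟨fun _ => trivial, fun _ j => j.elim0⟩
  | succ n ih =>
    intro F hF
    refine ((hF 0).and (ih (fun j => F j.succ) fun j => hF j.succ)).congr fun M x => ?_
    constructor
    · intro h
      exact ⟨h 0, fun j => h j.succ⟩
    · rintro ⟨h1, h2⟩ j
      refine Fin.cases h1 (fun j => h2 j) j

/-- conjunctions over `i < n` -/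
theorem Lg.Is.allLt {h : Prop} [Finite ι] (n : ℕ) (F : ℕ → L.Fam ι)
    (hF : ∀ j, L.Is h (F j)) : L.Is h (fun M (x : ι → L.car M) => ∀ j < n, F j M x) :=
  (Lg.Is.allFin n (fun j => F j) fun j => hF j).congr fun M x =>
    ⟨fun h j => h j j.2, fun h j hj => h ⟨j, hj⟩⟩

/-! ### homogeneous families are subgroups -/

theorem Lg.Is.cos {h : Prop} [Finite ι] {F : L.Fam ι} (hF : L.Is h F) {M : L.K}
    {x y z : ι → L.car M} (h1 : F M x) (h2 : F M y) (h3 : F M z) : F M (x - y + z) := by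
  obtain ⟨D, -, h5⟩ := hF
  rw [h5] at h1 h2 h3 ⊢
  exact L.cos D M x y z h1 h2 h3

theorem Lg.Is.zero [Finite ι] {F : L.Fam ι} (hF : L.Is True F) (M : L.K) :
    F M (0 : ι → L.car M) := by
  obtain ⟨D, h1, h2⟩ := hF
  rw [h2]
  exact L.zero D M (h1 trivial)

theorem Lg.Is.add [Finite ι] {F : L.Fam ι} (hF : L.Is True F) {M : L.K} {x y : ι → L.car M}
    (h1 : F M x) (h2 : F M y) : F M (x + y) := by
  have h3 := hF.cos h1 (hF.zero M) h2
  rwa [sub_zero] at h3

theorem Lg.Is.neg [Finite ι] {F : L.Fam ι} (hF : L.Is True F) {M : L.K} {x : ι → L.car M}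
    (h1 : F M x) : F M (-x) := by
  have h3 := hF.cos (hF.zero M) h1 (hF.zero M)
  rwa [zero_sub, add_zero] at h3

theorem Lg.Is.sb [Finite ι] {F : L.Fam ι} (hF : L.Is True F) {M : L.K} {x y : ι → L.car M}
    (h1 : F M x) (h2 : F M y) : F M (x - y) := by
  have h3 := hF.cos h1 h2 (hF.zero M)
  rwa [add_zero] at h3

/-- the group of the differences -/
theorem Lg.Is.exists_dif {h : Prop} [Finite ι] {F : L.Fam ι} (hF : L.Is h F) : ∃ F0 : L.Fam ι,
    L.Is True F0 ∧ ∀ (M : L.K) (x y : ι → L.car M), F M x → (F M y ↔ F0 M (y - x)) := by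
  obtain ⟨D, -, h5⟩ := hF
  obtain ⟨E, h6, h7⟩ := L.dif D
  refine ⟨fun M x => L.S E M x, ⟨E, fun _ => h6, fun _ _ => Iff.rfl⟩, fun M x y hx => ?_⟩
  rw [h5] at hx ⊢
  exact h7 M x y hx

end

end Pool.Agent.AFH
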