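import Pool.Agent.AFH.EX

/-!
# Back and forth: countable models with the same exact formulas are isomorphic (helper97, after helper21)
-/

set_option autoImplicit false
set_option linter.unusedSectionVars false
set_option linter.unusedVariables false

namespace Pool.Agent.AFH

open Set

variable {L : Lg}

theorem exact_ren {ι κ : Type} [Finite ι] [Finite κ] (e : κ ≃ ι) (V : L.Fam κ) {M : L.K}
    (x : ι → L.car M) : L.Exact (fun M (x : ι → L.car M) => V M (x ∘ e)) M x ↔
      L.Exact V M (x ∘ e) := by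
  have e1 : ∀ {A : Type} (y : κ → A), (y ∘ e.symm) ∘ e = y := by
    intro A y
    funext i
    simp
  have e2 : ∀ {A : Type} (y : ι → A), (y ∘ e) ∘ e.symm = y := by
    intro A y
    funext i
    simp
  constructor
  · rintro ⟨h0, h1, h2⟩
    refine ⟨(h0.comap e.symm).congr fun M y => by rw [e1], h1, fun W hW hWx N y hy => ?_⟩
    have h3 := h2 (fun M (x : ι → L.car M) => W M (x ∘ e)) (hW.comap e) hWx N (y ∘ e.symm)
    simp only [e1] at h3
    exact h3 hy
  · rintro ⟨h0, h1, h2⟩
    refine ⟨h0.comap e, h1, fun W hW hWx N y hy => ?_⟩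
    have h3 := h2 (fun M (x : κ → L.car M) => W M (x ∘ e.symm)) (hW.comap e.symm)
      (by rw [e2]; exact hWx) N (y ∘ e) hy
    rwa [e2] at h3

/-- exact tuples for the same formula -/
private def PI (L : Lg) {ι : Type} {M N : L.K} (a : ι → L.car M) (b : ι → L.car N) : Prop :=
  ∃ D : L.Fam ι, L.Exact D M a ∧ L.Exact D N b

private theorem PI.symm {ι : Type} {M N : L.K} {a : ι → L.car M} {b : ι → L.car N}
    (h : PI L a b) : PI L b a := by
  obtain ⟨D, h1, h2⟩ := h
  exact ⟨D, h2, h1⟩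

private theorem PI.l0 {ι : Type} {M N : L.K} {a : ι → L.car M} {b : ι → L.car N}
    (h : PI L a b) {F : L.Fam ι} (hF : L.Is False F) (ha : F M a) : F N b := by
  obtain ⟨D, h1, h2⟩ := h
  exact h1.2.2 F hF ha N b h2.2.1

private theorem forth (hT : L.T1) (hU : L.UML) {M N : L.K}
    (hex : ∀ (ι : Type) [Finite ι] (D : L.Fam ι), (∃ x : ι → L.car M, L.Exact D M x) →
      ∃ x : ι → L.car N, L.Exact D N x)
    {ι : Type} [Finite ι] {a : ι → L.car M} {b : ι → L.car N} (h : PI L a b) (d : L.car M) :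
    ∃ e : L.car N, PI L (Sum.elim a fun _ : Fin 1 => d) (Sum.elim b fun _ : Fin 1 => e) := by
  obtain ⟨D, h1, h2⟩ := h
  obtain ⟨E, hE⟩ := hU M (ι ⊕ Fin 1) (Sum.elim a fun _ => d)
  have hG : L.Is False (fun K (x : ι → L.car K) => ∃ y : Fin 1 → L.car K, E K (Sum.elim x y)) :=
    hE.1.ex
  have hG' : L.Is False (fun K (x : ι ⊕ Fin 1 → L.car K) => D K (x ∘ Sum.inl)) :=
    h1.1.comap Sum.inl
  have hDE : ∀ (K : L.K) (x : ι → L.car K),
      D K x ↔ ∃ y : Fin 1 → L.car K, E K (Sum.elim x y) := by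
    intro K x
    constructor
    · intro hx
      exact h1.2.2 _ hG ⟨fun _ => d, hE.2.1⟩ K x hx
    · rintro ⟨y, hy⟩
      exact hE.2.2 _ hG' h1.2.1 K (Sum.elim x y) hy
  obtain ⟨z, hz⟩ := hex (ι ⊕ Fin 1) E ⟨_, hE⟩
  obtain ⟨e, he⟩ := exact_ext hT hDE h2 hz
  refine ⟨e 0, E, hE, ?_⟩
  have : (fun _ : Fin 1 => e 0) = e := by
    funext i
    rw [Subsingleton.elim i 0]
  rw [this]
  exact he

/-- the finite partial maps -/
private def Stt (L : Lg) (M N : L.K) (S : Set (L.car M × L.car N)) : Prop :=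
  ∃ (ι : Type) (_ : Finite ι) (c : ι → L.car M × L.car N), range c = S ∧
    PI L (fun i => (c i).1) (fun i => (c i).2)

private theorem chain {A : Type} (le : A → A → Prop) (D : ℕ → A → Prop)
    (hD : ∀ n a, ∃ b, le a b ∧ D n b) (a₀ : A) :
    ∃ f : ℕ → A, f 0 = a₀ ∧ (∀ n, le (f n) (f (n + 1))) ∧ ∀ n, D n (f (n + 1)) := by
  choose g hg1 hg2 using hD
  exact ⟨fun n => Nat.rec a₀ (fun k a => g k a) n, rfl, fun n => hg1 _ _, fun n => hg2 _ _⟩

/-- Countable models with the same exact formulas: tuples which are exact for the same formula are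
exchanged by a bijection which preserves all affine formulas in both directions. -/
theorem thm_END (hT : L.T1) (hU : L.UML) (M N : L.K) (hMc : Countable (L.car M))
    (hNc : Countable (L.car N))
    (hex : ∀ (n : ℕ) (D : L.Fam (Fin n)), (∃ x : Fin n → L.car M, L.Exact D M x) ↔
      ∃ x : Fin n → L.car N, L.Exact D N x) (k : ℕ) (a : Fin k → L.car M) (b : Fin k → L.car N)
    (D : L.Fam (Fin k)) (ha : L.Exact D M a) (hb : L.Exact D N b) :
    ∃ g : L.car M ≃ L.car N, (∀ i, g (a i) = b i) ∧ ∀ (n : ℕ) (F : L.Fam (Fin n)),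
      L.Is False F → ∀ x : Fin n → L.car M, F M x ↔ F N (g ∘ x) := by
  have hex1 : ∀ (ι : Type) [Finite ι] (D : L.Fam ι), (∃ x : ι → L.car M, L.Exact D M x) ↔
      ∃ x : ι → L.car N, L.Exact D N x := by
    intro ι _ D
    obtain ⟨n, ⟨e⟩⟩ := Finite.exists_equiv_fin ι
    have h1 : ∀ K : L.K, (∃ x : ι → L.car K, L.Exact D K x) ↔
        ∃ x : Fin n → L.car K, L.Exact (fun M (x : Fin n → L.car M) => D M (x ∘ e)) K x := by
      intro K
      constructor
      · rintro ⟨x, hx⟩
        refine ⟨x ∘ e.symm, (exact_ren e D _).mpr ?_⟩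
        have : (x ∘ e.symm) ∘ e = x := by
          funext i
          simp
        rw [this]
        exact hx
      · rintro ⟨x, hx⟩
        exact ⟨x ∘ e, (exact_ren e D _).mp hx⟩
    rw [h1, h1]
    exact hex n _
  -- the steps
  have stepM : ∀ (S : Set (L.car M × L.car N)), Stt L M N S → ∀ d : L.car M, ∃ T,
      Stt L M N T ∧ S ⊆ T ∧ ∃ e, (d, e) ∈ T := by
    rintro S ⟨ι, hι, c, rfl, hc⟩ d
    obtain ⟨e, he⟩ := forth hT hU (fun κ _ D => (hex1 κ D).mp) hc d
    refine ⟨range (Sum.elim c fun _ : Fin 1 => (d, e)), ⟨ι ⊕ Fin 1, inferInstance, _, rfl, ?_⟩,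
      ?_, e, ⟨Sum.inr 0, rfl⟩⟩
    · have h1 : (fun i => ((Sum.elim c (fun _ : Fin 1 => (d, e)) i) : L.car M × L.car N).1) =
          Sum.elim (fun i => (c i).1) fun _ => d := by
        funext i
        cases i <;> rfl
      have h2 : (fun i => ((Sum.elim c (fun _ : Fin 1 => (d, e)) i) : L.car M × L.car N).2) =
          Sum.elim (fun i => (c i).2) fun _ => e := by
        funext i
        cases i <;> rfl
      rw [h1, h2]
      exact he
    · rintro _ ⟨i, rfl⟩
      exact ⟨Sum.inl i, rfl⟩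
  have stepN : ∀ (S : Set (L.car M × L.car N)), Stt L M N S → ∀ e : L.car N, ∃ T,
      Stt L M N T ∧ S ⊆ T ∧ ∃ d, (d, e) ∈ T := by
    rintro S ⟨ι, hι, c, rfl, hc⟩ e
    obtain ⟨d, hd⟩ := forth hT hU (fun κ _ D => (hex1 κ D).mpr) hc.symm e
    refine ⟨range (Sum.elim c fun _ : Fin 1 => (d, e)), ⟨ι ⊕ Fin 1, inferInstance, _, rfl, ?_⟩,
      ?_, d, ⟨Sum.inr 0, rfl⟩⟩
    · have h1 : (fun i => ((Sum.elim c (fun _ : Fin 1 => (d, e)) i) : L.car M × L.car N).1) =
          Sum.elim (fun i => (c i).1) fun _ => d := by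
        funext i
        cases i <;> rfl
      have h2 : (fun i => ((Sum.elim c (fun _ : Fin 1 => (d, e)) i) : L.car M × L.car N).2) =
          Sum.elim (fun i => (c i).2) fun _ => e := by
        funext i
        cases i <;> rfl
      rw [h1, h2]
      exact hd.symm
    · rintro _ ⟨i, rfl⟩
      exact ⟨Sum.inl i, rfl⟩
  have neM : Nonempty (L.car M) := ⟨0⟩
  have neN : Nonempty (L.car N) := ⟨0⟩
  obtain ⟨uM, huM⟩ := exists_surjective_nat (L.car M)
  obtain ⟨uN, huN⟩ := exists_surjective_nat (L.car N)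
  have start : Stt L M N (range fun i => (a i, b i)) :=
    ⟨Fin k, inferInstance, fun i => (a i, b i), rfl, D, ha, hb⟩
  obtain ⟨f, hf0, hf1, hf2⟩ := chain (A := {S : Set (L.car M × L.car N) // Stt L M N S})
    (fun S T => S.1 ⊆ T.1)
    (fun n S => (∃ e, (uM n, e) ∈ S.1) ∧ ∃ d, (d, uN n) ∈ S.1) (by
      intro n S
      obtain ⟨T, hT, hST, e, he⟩ := stepM S.1 S.2 (uM n)
      obtain ⟨T', hT', hTT', d, hd⟩ := stepN T hT (uN n)
      exact ⟨⟨T', hT'⟩, hST.trans hTT', ⟨e, hTT' he⟩, ⟨d, hd⟩⟩) ⟨_, start⟩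
  have hmono : ∀ i j, i ≤ j → (f i).1 ⊆ (f j).1 := by
    intro i j hij
    induction hij with
    | refl => exact subset_rfl
    | step _ ih => exact ih.trans (hf1 _)
  have totM : ∀ m : L.car M, ∃ n k, (m, n) ∈ (f k).1 := by
    intro m
    obtain ⟨i, rfl⟩ := huM m
    obtain ⟨⟨e, he⟩, -⟩ := hf2 i
    exact ⟨e, i + 1, he⟩
  have totN : ∀ n : L.car N, ∃ m k, (m, n) ∈ (f k).1 := by
    intro n
    obtain ⟨i, rfl⟩ := huN n
    obtain ⟨-, ⟨d, hd⟩⟩ := hf2 i
    exact ⟨d, i + 1, hd⟩
  -- affine formulas are preserved on tuples of pairs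
  have key : ∀ (n : ℕ) (F : L.Fam (Fin n)), L.Is False F → ∀ (x : Fin n → L.car M)
      (y : Fin n → L.car N), (∀ i, ∃ k, (x i, y i) ∈ (f k).1) → (F M x ↔ F N y) := by
    intro n F hF x y hxy
    choose kk hkk using hxy
    obtain ⟨l, hl⟩ : ∃ l, ∀ i, kk i ≤ l := ⟨Finset.univ.sup kk, fun i =>
      Finset.le_sup (Finset.mem_univ i)⟩
    obtain ⟨ι, hι, c, hc, hPI⟩ := (f l).2
    have h1 : ∀ i, ∃ j, c j = (x i, y i) := by
      intro i
      have h2 := hmono _ l (hl i) (hkk i)
      rw [← hc] at h2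
      exact h2
    choose h hh using h1
    have hx : (fun i => (c i).1) ∘ h = x := by
      funext i
      show (c (h i)).1 = x i
      rw [hh]
    have hy : (fun i => (c i).2) ∘ h = y := by
      funext i
      show (c (h i)).2 = y i
      rw [hh]
    constructor
    · intro hFx
      have h3 := hPI.l0 (hF.comap h) (by
        show F M ((fun i => (c i).1) ∘ h)
        rw [hx]
        exact hFx)
      have h4 : F N ((fun i => (c i).2) ∘ h) := h3
      rwa [hy] at h4
    · intro hFy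
      have h3 := hPI.symm.l0 (hF.comap h) (by
        show F N ((fun i => (c i).2) ∘ h)
        rw [hy]
        exact hFy)
      have h4 : F M ((fun i => (c i).1) ∘ h) := h3
      rwa [hx] at h4
  -- equality
  have heq : ∀ (p q : L.car M × L.car N) (i j : ℕ), p ∈ (f i).1 → q ∈ (f j).1 →
      (p.1 = q.1 ↔ p.2 = q.2) := by
    intro p q i j hp hq
    have h1 : L.Is False (fun K (x : Fin 2 → L.car K) => x 0 = x 1) := by
      refine ((L.is_zero False (ι := Fin 1)).comapSub (fun _ : Fin 1 => (0 : Fin 2))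
        (fun _ => 1)).congr fun K x => ?_
      constructor
      · intro h
        funext i
        show x 0 - x 1 = 0
        rw [h, sub_self]
      · intro h
        exact sub_eq_zero.mp (congrFun h 0)
    have h2 := key 2 _ h1 ![p.1, q.1] ![p.2, q.2] (by
      intro i'
      fin_cases i'
      · exact ⟨i, hp⟩
      · exact ⟨j, hq⟩)
    exact h2
  choose g kg hg using totM
  have hgu : ∀ (m : L.car M) (n : L.car N) (k : ℕ), (m, n) ∈ (f k).1 → g m = n := by
    intro m n k h
    exact (heq _ _ _ _ (hg m) h).mp rfl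
  refine ⟨Equiv.ofBijective g ⟨?_, ?_⟩, fun i => ?_, fun n F hF x => ?_⟩
  · intro x y hxy
    exact (heq _ _ _ _ (hg x) (hg y)).mpr hxy
  · intro n
    obtain ⟨m, k, h⟩ := totN n
    exact ⟨m, hgu m n k h⟩
  · refine hgu (a i) (b i) 0 ?_
    rw [hf0]
    exact ⟨i, rfl⟩
  · exact key n F hF x (g ∘ x) fun i => ⟨_, hg (x i)⟩

/-- Countable models with the same exact formulas are isomorphic (by a bijection which preserves all
affine formulas in both directions). -/
theorem thm_ISO (hT : L.T1) (hU : L.UML) (M N : L.K) (hMc : Countable (L.car M))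
    (hNc : Countable (L.car N))
    (hex : ∀ (n : ℕ) (D : L.Fam (Fin n)), (∃ x : Fin n → L.car M, L.Exact D M x) ↔
      ∃ x : Fin n → L.car N, L.Exact D N x) :
    ∃ g : L.car M ≃ L.car N, ∀ (n : ℕ) (F : L.Fam (Fin n)), L.Is False F →
      ∀ x : Fin n → L.car M, F M x ↔ F N (g ∘ x) := by
  obtain ⟨D, hD⟩ := hU M (Fin 0) Fin.elim0
  obtain ⟨y, hy⟩ := (hex 0 D).mp ⟨_, hD⟩
  obtain ⟨g, -, hg⟩ := thm_END hT hU M N hMc hNc hex 0 _ y D hD hy
  exact ⟨g, hg⟩

/-- A bijection which preserves all affine formulas is additive. -/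
theorem map_add_of_pres {M N : L.K} (g : L.car M → L.car N)
    (hg : ∀ (n : ℕ) (F : L.Fam (Fin n)), L.Is False F → ∀ x : Fin n → L.car M, F M x ↔ F N (g ∘ x))
    (x y : L.car M) : g (x + y) = g x + g y := by
  have h1 : L.Is False (fun K (x : Fin 3 → L.car K) => x 0 + x 1 = x 2) := by
    refine ((L.is_zero False (ι := Fin 1)).sub (ι := Fin 3) (fun _ => Finsupp.single 0 (1 : ℤ) +
      Finsupp.single 1 (1 : ℤ) - Finsupp.single 2 (1 : ℤ))).congr fun K x => ?_
    have e : (fun _ : Fin 1 => Finsupp.linearCombination ℤ x (Finsupp.single 0 (1 : ℤ) +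
        Finsupp.single 1 (1 : ℤ) - Finsupp.single 2 (1 : ℤ))) = fun _ => x 0 + x 1 - x 2 := by
      funext k
      rw [map_sub, map_add, Finsupp.linearCombination_single, Finsupp.linearCombination_single,
        Finsupp.linearCombination_single, one_smul, one_smul, one_smul]
    rw [e]
    constructor
    · intro h
      funext i
      show x 0 + x 1 - x 2 = 0
      rw [h, sub_self]
    · intro h
      exact sub_eq_zero.mp (congrFun h 0)
  have h2 := (hg 3 _ h1 ![x, y, x + y]).mp rfl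
  exact h2.symm

/-- Countable models with the same exact formulas are isomorphic by an additive bijection which
preserves all affine formulas in both directions. -/
theorem thm_ISO_add (hT : L.T1) (hU : L.UML) (M N : L.K) (hMc : Countable (L.car M))
    (hNc : Countable (L.car N))
    (hex : ∀ (n : ℕ) (D : L.Fam (Fin n)), (∃ x : Fin n → L.car M, L.Exact D M x) ↔
      ∃ x : Fin n → L.car N, L.Exact D N x) :
    ∃ g : L.car M ≃+ L.car N, ∀ (n : ℕ) (F : L.Fam (Fin n)), L.Is False F →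
      ∀ x : Fin n → L.car M, F M x ↔ F N (g ∘ x) := by
  obtain ⟨g, hg⟩ := thm_ISO hT hU M N hMc hNc hex
  exact ⟨AddEquiv.mk' g (map_add_of_pres g hg), hg⟩

end Pool.Agent.AFH
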