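import Pool.Agent.AFH.ADJ

/-!
# Generic tuples lift to exact tuples; homogeneity (helper97)
-/

set_option autoImplicit false
set_option linter.unusedSectionVars false
set_option linter.unusedVariables false

namespace Pool.Agent.AFH

open Set

variable {L : Lg} {ι : Type} [Finite ι]

/-- `{(u, w) : ∃ v ∈ K, u - v ∈ ψ, w - v ∈ θ}` is affine -/
private theorem EX_rel {K ψ θ : L.Fam ι} (hK : L.Is False K) (hψ : L.Is True ψ)
    (hθ : L.Is True θ) : L.Is False (fun M (z : ι ⊕ ι → L.car M) => ∃ v : ι → L.car M,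
      K M v ∧ ψ M (z ∘ Sum.inl - v) ∧ θ M (z ∘ Sum.inr - v)) :=
  ((hK.comap (Sum.inr : ι → (ι ⊕ ι) ⊕ ι)).and
    ((hψ.aff.comapSub (fun i => Sum.inl (Sum.inl i) : ι → (ι ⊕ ι) ⊕ ι) Sum.inr).and
      (hθ.aff.comapSub (fun i => Sum.inl (Sum.inr i) : ι → (ι ⊕ ι) ⊕ ι) Sum.inr))).ex

/-- `{v : (v, v) ∈ K}` is affine -/
private theorem EX_dia {K : L.Fam (ι ⊕ ι)} (hK : L.Is False K) :
    L.Is False (fun M (v : ι → L.car M) => K M (Sum.elim v v)) := by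
  refine (hK.comap (Sum.elim id id : ι ⊕ ι → ι)).congr fun M x => ?_
  refine iff_of_eq (congrArg (K M) ?_)
  funext i
  cases i <;> rfl

/-- one step of the construction -/
private theorem EX_step (hT : L.T1) {M : L.K} {H H0 θ : L.Fam ι} (hH : L.Is False H)
    (hH0 : L.Is True H0)
    (hd : ∀ (M : L.K) (x y : ι → L.car M), H M x → (H M y ↔ H0 M (y - x)))
    (hθi : L.Is True θ) (hθ : L.Le (L.NE H) θ H0)
    {c c₁ : ι → L.car M} (hc : L.Exact H M c) (hc₁ : Gen L H θ M c₁)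
    (hne : ¬ L.Exact H M c₁) :
    ∃ (θ' : L.Fam ι) (c₂ : ι → L.car M) (ψ : L.Fam ι), L.Is True θ' ∧ L.Is True ψ ∧
      L.Le (L.NE H) θ' θ ∧ L.Le (L.NE H) θ' ψ ∧ L.Le (L.NE H) ψ H0 ∧
      ¬ L.Le (L.NE H) H0 ψ ∧ L.LeSum (L.NE H) H0 ψ θ ∧ θ M (c₂ - c₁) ∧ Gen L H θ' M c₂ := by
  have hshift : ∀ {N : L.K} {x p : ι → L.car N}, H N x → H0 N p → H N (x + p) := by
    intro N x p hx hp
    rw [hd N x _ hx, add_sub_cancel_left]
    exact hp
  obtain ⟨W, hWi, hW, N1, y1, hy1, hny1⟩ : ∃ W : L.Fam ι, L.Is False W ∧ W M c₁ ∧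
      ∃ (N : L.K) (y : ι → L.car N), H N y ∧ ¬ W N y := by
    by_contra hcon
    push Not at hcon
    exact hne ⟨hH, hc₁.1, fun W hW hWc N y hy => hcon W hW hWc N y hy⟩
  have hα : L.Is False (fun N (x : ι → L.car N) => W N x ∧ H N x) := hWi.and hH
  obtain ⟨α0, hα0, hαd⟩ := hα.exists_dif
  have hα4 := hc₁.2 _ hα ⟨hW, hc₁.1⟩
  have hα2 : L.Le (L.NE H) α0 H0 := by
    rintro N ⟨u, hu⟩ p hp
    obtain ⟨v, hv, -⟩ := hα4 N u hu
    have h1 : H N (v + p) := ((hαd N v (v + p) hv).mpr (by rwa [add_sub_cancel_left])).2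
    have h2 := (hd N v _ hv.2).mp h1
    rwa [add_sub_cancel_left] at h2
  have hα3 : ¬ L.Le (L.NE H) H0 α0 := by
    intro h
    obtain ⟨v, hv, -⟩ := hα4 N1 y1 hy1
    have h1 := h N1 ⟨y1, hy1⟩ _ ((hd N1 v y1 hv.2).mp hy1)
    exact hny1 ((hαd N1 v y1 hv).mpr h1).1
  obtain ⟨ψ, hψi, hψ1, hψ2, hψ3, hψ4⟩ := L.exists_hollow (hT.t1P hH) hα0 hH0 hα2 hα3
  have hsum : L.LeSum (L.NE H) H0 ψ θ := by
    rintro N ⟨v, hv⟩ x hx
    obtain ⟨a1, ha1, ht1⟩ := hα4 N v hv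
    obtain ⟨a2, ha2, ht2⟩ := hα4 N (v + x) (hshift hv hx)
    refine ⟨a2 - a1, hψ1 N ⟨v, hv⟩ _ ((hαd N a1 a2 ha1).mp ha2), ?_⟩
    have h1 := hθi.sb ht2 ht1
    have h2 : v + x - a2 - (v - a1) = x - (a2 - a1) := by abel
    rwa [h2] at h1
  have D : Dat L H H0 ψ θ := ⟨hH, hH0, hd, hψi, hθi, hψ2, hθ, hψ3, hψ4⟩
  -- `c` is independent over `c`
  have hI : IOv L H ψ θ M c c := by
    intro K hK hKc N u w hu hw
    have h1 := hc.2.2 _ (EX_dia hK) hKc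
    obtain ⟨y, hy1, hy2⟩ := hsum N ⟨w, hw⟩ (u - w) (D.diff hw hu)
    refine ⟨y, -(u - w - y), hy1, hθi.neg hy2, ?_⟩
    have h0 : H N (u - y) := by
      rw [sub_eq_add_neg]
      exact hshift hu (hH0.neg (hψ2 N ⟨w, hw⟩ y hy1))
    have h2 := h1 N (u - y) h0
    have h3 : w - -(u - w - y) = u - y := by abel
    rw [h3]
    exact h2
  have hcg : Gen L H θ M c := by
    refine ⟨hc.2.1, fun K hK hKc N x hx => ⟨x, hc.2.2 K hK hKc N x hx, ?_⟩⟩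
    rw [sub_self]
    exact hθi.zero N
  obtain ⟨x', hx', hI'⟩ := exists_iov (hT.t1P hH) D hcg hc₁ hc.2.1 hI
  obtain ⟨y, hy1, hy2⟩ := hsum M ⟨c, hc.2.1⟩ (x' - c₁) (D.diff hc₁.1 hx')
  refine ⟨fun N x => θ N x ∧ ψ N x, x' - y, ψ, hθi.and hψi, hψi, fun N _ x hx => hx.1,
    fun N _ x hx => hx.2, hψ2, hψ3, hsum, ?_, ?_, ?_⟩
  · have h3 : x' - y - c₁ = x' - c₁ - y := by abel
    rw [h3]
    exact hy2
  · rw [sub_eq_add_neg]
    exact hshift hx' (hH0.neg (hψ2 M ⟨c, hc.2.1⟩ y hy1))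
  · intro K hK hKx N h hh
    have h1 : (fun M (z : ι ⊕ ι → L.car M) => ∃ v : ι → L.car M,
        K M v ∧ ψ M (z ∘ Sum.inl - v) ∧ θ M (z ∘ Sum.inr - v)) M (Sum.elim x' c₁) := by
      refine ⟨x' - y, hKx, ?_, ?_⟩
      · rw [Sum.elim_comp_inl, sub_sub_cancel]
        exact hy1
      · rw [Sum.elim_comp_inr]
        have h3 : c₁ - (x' - y) = -(x' - c₁ - y) := by abel
        rw [h3]
        exact hθi.neg hy2
    obtain ⟨p, t, hp, ht, v, hv1, hv2, hv3⟩ := hI' _ (EX_rel hK hψi hθi) h1 N h h hh hh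
    rw [Sum.elim_comp_inl] at hv2
    rw [Sum.elim_comp_inr] at hv3
    refine ⟨v, hv1, ?_, ?_⟩
    · have h4 := hθi.add hv3 ht
      have h5 : h - t - v + t = h - v := by abel
      rwa [h5] at h4
    · have h4 := hψi.add hv2 hp
      have h5 : h - p - v + p = h - v := by abel
      rwa [h5] at h4

/-- generic tuples lift to exact tuples -/
theorem exact_lift (hT : L.T1) {M : L.K} {H H0 θ : L.Fam ι} (hH0 : L.Is True H0)
    (hd : ∀ (M : L.K) (x y : ι → L.car M), H M x → (H M y ↔ H0 M (y - x)))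
    (hθi : L.Is True θ) (hθ : L.Le (L.NE H) θ H0) {c c' : ι → L.car M} (hc : L.Exact H M c)
    (hc' : Gen L H θ M c') : ∃ t : ι → L.car M, θ M t ∧ L.Exact H M (c' + t) := by
  by_contra hcon
  push Not at hcon
  have hH : L.Is False H := hc.1
  let S := {s : L.Fam ι × (ι → L.car M) // L.Is True s.1 ∧ L.Le (L.NE H) s.1 θ ∧
    θ M (s.2 - c') ∧ Gen L H s.1 M s.2}
  have hstep : ∀ s : S, ∃ (s' : S) (ψ : L.Fam ι), L.Is True ψ ∧ L.Le (L.NE H) ψ H0 ∧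
      ¬ L.Le (L.NE H) H0 ψ ∧ L.LeSum (L.NE H) H0 ψ s.1.1 ∧
      L.Le (L.NE H) s'.1.1 s.1.1 ∧ L.Le (L.NE H) s'.1.1 ψ := by
    rintro ⟨⟨θ₁, c₁⟩, h0, h1, h2, h3⟩
    have hne : ¬ L.Exact H M c₁ := by
      have h4 := hcon (c₁ - c') h2
      rwa [add_sub_cancel] at h4
    obtain ⟨θ', c₂, ψ, f1, f2, g1, g2, g3, g4, g5, g6, g7⟩ :=
      EX_step hT hH hH0 hd h0 (h1.trans hθ) hc h3 hne
    refine ⟨⟨⟨θ', c₂⟩, f1, g1.trans h1, ?_, g7⟩, ψ, f2, g3, g4, g5, g1, g2⟩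
    have h5 := hθi.add h2 (h1 M ⟨c, hc.2.1⟩ _ g6)
    have h6 : c₁ - c' + (c₂ - c₁) = c₂ - c' := by abel
    rwa [h6] at h5
  choose f ψ hψ0 hψ1 hψ2 hψ3 hψ4 hψ5 using hstep
  let s₀ : S := ⟨⟨θ, c'⟩, hθi, Lg.Le.refl θ, by
    show θ M (c' - c')
    rw [sub_self]
    exact hθi.zero M, hc'⟩
  let s : ℕ → S := fun n => Nat.rec s₀ (fun _ s => f s) n
  have hs : ∀ n, s (n + 1) = f (s n) := fun n => rfl
  have hmono : ∀ i j, i ≤ j → L.Le (L.NE H) (s j).1.1 (s i).1.1 := by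
    intro i j hij
    induction hij with
    | refl => exact Lg.Le.refl _
    | step hj ih =>
      refine Lg.Le.trans ?_ ih
      rw [Nat.succ_eq_add_one, hs]
      exact hψ4 _
  have hle : ∀ i j, i < j → L.Le (L.NE H) (s j).1.1 (ψ (s i)) := by
    intro i j hij
    refine (hmono (i + 1) j hij).trans ?_
    rw [hs]
    exact hψ5 _
  refine hT.t1P hH ι H0 (fun j => ψ (s j)) hH0 (fun j => hψ0 _) (fun j => hψ1 _)
    (fun j => hψ2 _) ?_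
  intro j N hN x hx
  obtain ⟨y, hy1, hy2⟩ := hψ3 (s j) N hN x hx
  refine ⟨x - y, ?_, ?_, ?_⟩
  · rw [sub_sub_cancel]
    exact hy1
  · exact ((s j).2.2.1.trans hθ) N hN _ hy2
  · intro i hi
    exact hle i j hi N hN _ hy2

/-- If `a` is exact for `D = ∃ y, E(x, y)` and `(a₁, b₁)` is exact for `E`, in the same model, then
there is `b` such that `(a, b)` is exact for `E`. -/
theorem exact_ext (hT : L.T1) {κ : Type} [Finite κ] {M : L.K} {D : L.Fam ι} {E : L.Fam (ι ⊕ κ)}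
    (hDE : ∀ (N : L.K) (x : ι → L.car N), D N x ↔ ∃ y : κ → L.car N, E N (Sum.elim x y))
    {a : ι → L.car M} (ha : L.Exact D M a) {ab₁ : ι ⊕ κ → L.car M} (hab : L.Exact E M ab₁) :
    ∃ b : κ → L.car M, L.Exact E M (Sum.elim a b) := by
  obtain ⟨b₀, hb₀⟩ := (hDE M a).mp ha.2.1
  obtain ⟨E0, hE0, hd⟩ := hab.1.exists_dif
  let θ : L.Fam (ι ⊕ κ) := fun N z => z ∘ Sum.inl = 0 ∧ E0 N z
  have hθ : L.Is True θ := ((L.is_zero True (ι := ι)).comap Sum.inl).and hE0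
  have hgen : Gen L E θ M (Sum.elim a b₀) := by
    refine ⟨hb₀, fun K hK hKab N z hz => ?_⟩
    have hK2 : L.Is False (fun M (u : ι → L.car M) => ∃ w : κ → L.car M,
        K M (Sum.elim u w) ∧ E M (Sum.elim u w)) := (hK.and hab.1).ex
    have hz' : Sum.elim (z ∘ Sum.inl) (z ∘ Sum.inr) = z := Sum.elim_comp_inl_inr z
    have h2 : D N (z ∘ Sum.inl) := (hDE N _).mpr ⟨z ∘ Sum.inr, by rw [hz']; exact hz⟩
    obtain ⟨w', hw1, hw2⟩ := ha.2.2 _ hK2 ⟨b₀, hKab, hb₀⟩ N _ h2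
    refine ⟨Sum.elim (z ∘ Sum.inl) w', hw1, ?_, (hd N _ _ hw2).mp hz⟩
    funext i
    show z (Sum.inl i) - z (Sum.inl i) = 0
    rw [sub_self]
  obtain ⟨t, ht, hex⟩ := exact_lift hT hE0 hd hθ (fun N _ z hz => hz.2) hab hgen
  refine ⟨b₀ + t ∘ Sum.inr, ?_⟩
  have e : Sum.elim a (b₀ + t ∘ Sum.inr) = Sum.elim a b₀ + t := by
    funext i
    rcases i with i | k
    · show a i = a i + t (Sum.inl i)
      have h1 : t (Sum.inl i) = 0 := congrFun ht.1 i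
      rw [h1, add_zero]
    · rfl
  rw [e]
  exact hex

end Pool.Agent.AFH
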