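import Pool.Agent.AFH.Defs
import Pool.Agent.VMF.H31_GLD

/-!
# The lattice of the homogeneous formulas below `H` on a class of models (helper97, after helper29)
-/

set_option autoImplicit false
set_option linter.unusedSectionVars false
set_option linter.unusedVariables false

namespace Pool.Agent.AFH

open Set

variable {L : Lg}

/-- no infinite coindependent sequence on the class `P` -/
def Lg.T1P (L : Lg) (P : L.K → Prop) : Prop :=
  ∀ (ι : Type) [Finite ι] (D : L.Fam ι) (W : ℕ → L.Fam ι), L.Is True D →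
    (∀ j, L.Is True (W j)) → (∀ j, L.Le P (W j) D) → (∀ j, ¬ L.Le P D (W j)) →
    ¬ ∀ (j : ℕ) (M : L.K), P M → ∀ x : ι → L.car M, D M x →
        ∃ y : ι → L.car M, W j M (x - y) ∧ D M y ∧ ∀ i < j, W i M y

theorem Lg.T1.t1P (h : L.T1) {α : Type} [Finite α] {E : L.Fam α} (hE : L.Is False E) :
    L.T1P (L.NE E) := fun ι _ D W h1 h2 h3 h4 h5 => h α ι E hE D W h1 h2 h3 h4 h5

/-- `[ψ, H]` is hollow on the class `P` -/
def Lg.Hollow (L : Lg) (P : L.K → Prop) {ι : Type} (ψ H : L.Fam ι) : Prop :=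
  ∀ α β : L.Fam ι, L.Is True α → L.Is True β → L.Le P ψ α → L.Le P α H → L.Le P ψ β →
    L.Le P β H → L.LeSum P H α β → L.Le P H α ∨ L.Le P H β

theorem Lg.Le.refl {P : L.K → Prop} {ι : Type} (F : L.Fam ι) : L.Le P F F := fun _ _ _ h => h

theorem Lg.Le.trans {P : L.K → Prop} {ι : Type} {F G H : L.Fam ι} (h : L.Le P F G)
    (h' : L.Le P G H) : L.Le P F H := fun M hM x hx => h' M hM x (h M hM x hx)

namespace LAT

variable {ι : Type}

/-- the homogeneous formulas below `H` -/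
def Pre (L : Lg) (P : L.K → Prop) (H : L.Fam ι) : Type :=
  {V : L.A ι // L.hom V ∧ L.Le P (fun M x => L.S V M x) H}

instance (P : L.K → Prop) (H : L.Fam ι) : Preorder (Pre L P H) where
  le V W := L.Le P (fun M x => L.S V.1 M x) (fun M x => L.S W.1 M x)
  le_refl V := Lg.Le.refl _
  le_trans U V W h h' := h.trans h'

/-- the homogeneous formulas below `H`, modulo equivalence on `P` -/
def Lat (L : Lg) (P : L.K → Prop) (H : L.Fam ι) (hH : L.Is True H) : Type :=
  Antisymmetrization (Pre L P H) (· ≤ ·)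

noncomputable instance (P : L.K → Prop) (H : L.Fam ι) (hH : L.Is True H) :
    PartialOrder (Lat L P H hH) :=
  inferInstanceAs (PartialOrder (Antisymmetrization (Pre L P H) (· ≤ ·)))

variable {P : L.K → Prop} {H : L.Fam ι} {hH : L.Is True H}

/-- the family of an element of the lattice -/
noncomputable def fo (a : Lat L P H hH) : L.Fam ι :=
  fun M x => L.S (ofAntisymmetrization (α := Pre L P H) (· ≤ ·) a).1 M x

theorem is_fo (a : Lat L P H hH) : L.Is True (fo a) :=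
  ⟨_, fun _ => (ofAntisymmetrization (α := Pre L P H) (· ≤ ·) a).2.1, fun _ _ => Iff.rfl⟩

theorem fo_le (a : Lat L P H hH) : L.Le P (fo a) H :=
  (ofAntisymmetrization (α := Pre L P H) (· ≤ ·) a).2.2

theorem le_iff {a b : Lat L P H hH} : a ≤ b ↔ L.Le P (fo a) (fo b) :=
  (ofAntisymmetrization_le_ofAntisymmetrization_iff (α := Pre L P H) (a := a) (b := b)).symm

theorem exists_mk (hH : L.Is True H) {V : L.Fam ι} (hV : L.Is True V) (h : L.Le P V H) :
    ∃ a : Lat L P H hH, ∀ (M : L.K) (x : ι → L.car M), P M → (fo a M x ↔ V M x) := by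
  obtain ⟨D, h1, h2⟩ := hV
  let p : Pre L P H := ⟨D, h1 trivial, fun M hM x hx => h M hM x ((h2 M x).mpr hx)⟩
  refine ⟨toAntisymmetrization (α := Pre L P H) (· ≤ ·) p, fun M x hM => ?_⟩
  have e := toAntisymmetrization_ofAntisymmetrization (α := Pre L P H) (· ≤ ·)
    (toAntisymmetrization (α := Pre L P H) (· ≤ ·) p)
  constructor
  · intro hx
    have h3 : toAntisymmetrization (α := Pre L P H) (· ≤ ·)
        (ofAntisymmetrization (α := Pre L P H) (· ≤ ·)
          (toAntisymmetrization (α := Pre L P H) (· ≤ ·) p)) ≤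
        toAntisymmetrization (α := Pre L P H) (· ≤ ·) p := e.le
    exact (h2 M x).mpr (toAntisymmetrization_le_toAntisymmetrization_iff.mp h3 M hM x hx)
  · intro hx
    have h3 : toAntisymmetrization (α := Pre L P H) (· ≤ ·) p ≤
        toAntisymmetrization (α := Pre L P H) (· ≤ ·)
        (ofAntisymmetrization (α := Pre L P H) (· ≤ ·)
          (toAntisymmetrization (α := Pre L P H) (· ≤ ·) p)) := e.ge
    exact toAntisymmetrization_le_toAntisymmetrization_iff.mp h3 M hM x ((h2 M x).mp hx)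

/-- the element given by a family -/
noncomputable def mkL (hH : L.Is True H) (V : L.Fam ι) (hV : L.Is True V) (h : L.Le P V H) :
    Lat L P H hH := (exists_mk hH hV h).choose

theorem fo_mk {V : L.Fam ι} {hV : L.Is True V} {h : L.Le P V H} {M : L.K} {x : ι → L.car M}
    (hM : P M) : fo (mkL hH V hV h) M x ↔ V M x := (exists_mk hH hV h).choose_spec M x hM

/-- the sum of two families -/
def plus (V W : L.Fam ι) : L.Fam ι := fun M x => ∃ y : ι → L.car M, V M y ∧ W M (x - y)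

/-- the conjunction of two families -/
def con (V W : L.Fam ι) : L.Fam ι := fun M x => V M x ∧ W M x

variable [Finite ι]

theorem plus_le (hH : L.Is True H) {V W : L.Fam ι} (hV : L.Le P V H) (hW : L.Le P W H) :
    L.Le P (plus V W) H := by
  intro M hM x hx
  obtain ⟨y, h1, h2⟩ := hx
  have := hH.add (hV M hM _ h1) (hW M hM _ h2)
  rwa [add_sub_cancel] at this

theorem le_plus_left {V W : L.Fam ι} (hW : L.Is True W) : L.Le P V (plus V W) := by
  intro M hM x hx
  refine ⟨x, hx, ?_⟩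
  rw [sub_self]
  exact hW.zero M

theorem le_plus_right {V W : L.Fam ι} (hV : L.Is True V) : L.Le P W (plus V W) := by
  intro M hM x hx
  refine ⟨0, hV.zero M, ?_⟩
  rwa [sub_zero]

noncomputable instance : Lattice (Lat L P H hH) where
  sup a b := mkL hH (plus (fo a) (fo b)) ((is_fo a).sum (is_fo b))
    (plus_le hH (fo_le a) (fo_le b))
  le_sup_left a b := le_iff.mpr fun M hM x hx =>
    (fo_mk hM).mpr (le_plus_left (P := P) (is_fo b) M hM x hx)
  le_sup_right a b := le_iff.mpr fun M hM x hx =>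
    (fo_mk hM).mpr (le_plus_right (P := P) (is_fo a) M hM x hx)
  sup_le a b c h1 h2 := le_iff.mpr fun M hM x hx =>
    plus_le (is_fo c) (le_iff.mp h1) (le_iff.mp h2) M hM x ((fo_mk hM).mp hx)
  inf a b := mkL hH (con (fo a) (fo b)) ((is_fo a).and (is_fo b))
    (fun M hM x hx => fo_le a M hM x hx.1)
  inf_le_left a b := le_iff.mpr fun M hM x hx => ((fo_mk hM).mp hx).1
  inf_le_right a b := le_iff.mpr fun M hM x hx => ((fo_mk hM).mp hx).2
  le_inf a b c h1 h2 := le_iff.mpr fun M hM x hx =>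
    (fo_mk hM).mpr ⟨le_iff.mp h1 M hM x hx, le_iff.mp h2 M hM x hx⟩

noncomputable instance : OrderTop (Lat L P H hH) where
  top := mkL hH H hH (Lg.Le.refl H)
  le_top a := le_iff.mpr fun M hM x hx => (fo_mk hM).mpr (fo_le a M hM x hx)

theorem fo_sup {a b : Lat L P H hH} {M : L.K} (hM : P M) {x : ι → L.car M} :
    fo (a ⊔ b) M x ↔ ∃ y : ι → L.car M, fo a M y ∧ fo b M (x - y) := fo_mk hM

theorem fo_inf {a b : Lat L P H hH} {M : L.K} (hM : P M) {x : ι → L.car M} :
    fo (a ⊓ b) M x ↔ fo a M x ∧ fo b M x := fo_mk hM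

theorem fo_top {M : L.K} (hM : P M) {x : ι → L.car M} :
    fo (⊤ : Lat L P H hH) M x ↔ H M x := fo_mk hM

instance : IsModularLattice (Lat L P H hH) where
  sup_inf_le_assoc_of_le {a} b {c} h := by
    refine le_iff.mpr fun M hM x hx => ?_
    obtain ⟨h1, h2⟩ := (fo_inf hM).mp hx
    obtain ⟨y, h3, h4⟩ := (fo_sup hM).mp h1
    exact (fo_sup hM).mpr ⟨y, h3, (fo_inf hM).mpr
      ⟨h4, (is_fo c).sb h2 (le_iff.mp h M hM y h3)⟩⟩

theorem eq_top_iff' {a : Lat L P H hH} : a = ⊤ ↔ L.Le P H (fo a) := by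
  constructor
  · rintro rfl
    exact fun M hM x hx => (fo_top hM).mpr hx
  · intro h
    exact top_le_iff.mp (le_iff.mpr fun M hM x hx => h M hM x ((fo_top hM).mp hx))

theorem fo_finset_inf (W : ℕ → Lat L P H hH) (j : ℕ) {M : L.K} (hM : P M) (x : ι → L.car M) :
    fo ((Finset.range j).inf W) M x ↔ H M x ∧ ∀ i < j, fo (W i) M x := by
  induction j with
  | zero =>
    rw [Finset.range_zero, Finset.inf_empty, fo_top hM]
    exact ⟨fun h => ⟨h, fun i hi => absurd hi (Nat.not_lt_zero i)⟩, fun h => h.1⟩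
  | succ j ih =>
    rw [Finset.range_add_one, Finset.inf_insert, fo_inf hM, ih]
    constructor
    · rintro ⟨h1, h2, h3⟩
      refine ⟨h2, fun i hi => ?_⟩
      rcases Nat.lt_succ_iff_lt_or_eq.mp hi with h | rfl
      · exact h3 i h
      · exact h1
    · rintro ⟨h1, h2⟩
      exact ⟨h2 j (Nat.lt_succ_self j), h1, fun i hi => h2 i (Nat.lt_succ_of_lt hi)⟩

theorem coind_iff (W : ℕ → Lat L P H hH) (j : ℕ) : W j ⊔ (Finset.range j).inf W = ⊤ ↔
    ∀ M : L.K, P M → ∀ x : ι → L.car M, H M x →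
      ∃ y : ι → L.car M, fo (W j) M (x - y) ∧ H M y ∧ ∀ i < j, fo (W i) M y := by
  rw [eq_top_iff']
  constructor
  · intro h M hM x hx
    obtain ⟨y, h1, h2⟩ := (fo_sup hM).mp (h M hM x hx)
    refine ⟨x - y, ?_, (fo_finset_inf W j hM _).mp h2⟩
    rwa [sub_sub_cancel]
  · intro h M hM x hx
    obtain ⟨y, h1, h2⟩ := h M hM x hx
    refine (fo_sup hM).mpr ⟨x - y, h1, ?_⟩
    rw [sub_sub_cancel]
    exact (fo_finset_inf W j hM _).mpr h2

theorem no_coind (hT : L.T1P P) (hH : L.Is True H) :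
    ¬ ∃ W : ℕ → Lat L P H hH, (∀ j, W j ≠ ⊤) ∧ ∀ j, W j ⊔ (Finset.range j).inf W = ⊤ := by
  rintro ⟨W, h1, h2⟩
  refine hT ι H (fun j => fo (W j)) hH (fun j => is_fo _) (fun j => fo_le _)
    (fun j h => h1 j (eq_top_iff'.mpr h)) ?_
  intro j
  exact (coind_iff W j).mp (h2 j)

end LAT

open LAT

/-- hollow quotients exist -/
theorem Lg.exists_hollow {P : L.K → Prop} (hT : L.T1P P) {ι : Type} [Finite ι] {ψ H : L.Fam ι}
    (hψ : L.Is True ψ) (hH : L.Is True H) (h1 : L.Le P ψ H) (h2 : ¬ L.Le P H ψ) :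
    ∃ ψ' : L.Fam ι, L.Is True ψ' ∧ L.Le P ψ ψ' ∧ L.Le P ψ' H ∧ ¬ L.Le P H ψ' ∧
      L.Hollow P ψ' H := by
  obtain ⟨h, h3, h4, h5⟩ := Pool.Agent.VMF.H31.thm_HLW (Lat L P H hH) (no_coind hT hH)
    (mkL hH ψ hψ h1) (fun h => h2 fun M hM x hx => (fo_mk hM).mp (eq_top_iff'.mp h M hM x hx))
  refine ⟨fo h, is_fo h, fun M hM x hx => le_iff.mp h3 M hM x ((fo_mk hM).mpr hx), fo_le h,
    fun h6 => h4 (eq_top_iff'.mpr h6), ?_⟩
  intro α β hαi hβi hα hα' hβ hβ' hs
  have h6 : mkL hH α hαi hα' ⊔ mkL hH β hβi hβ' = (⊤ : Lat L P H hH) := by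
    rw [eq_top_iff']
    intro M hM x hx
    obtain ⟨y, hy, hy'⟩ := hs M hM x hx
    exact (fo_sup hM).mpr ⟨y, (fo_mk hM).mpr hy, (fo_mk hM).mpr hy'⟩
  rcases h5 (mkL hH α hαi hα') (mkL hH β hβi hβ')
    (le_iff.mpr fun M hM x hx => (fo_mk hM).mpr (hα M hM x hx))
    (le_iff.mpr fun M hM x hx => (fo_mk hM).mpr (hβ M hM x hx)) h6 with h7 | h7
  · exact Or.inl fun M hM x hx => (fo_mk hM).mp (eq_top_iff'.mp h7 M hM x hx)
  · exact Or.inr fun M hM x hx => (fo_mk hM).mp (eq_top_iff'.mp h7 M hM x hx)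

/-- finite coindependent families have bounded size -/
theorem Lg.exists_goldie {P : L.K → Prop} (hT : L.T1P P) {ι : Type} [Finite ι] {H : L.Fam ι}
    (hH : L.Is True H) : ∃ n : ℕ, ∀ (m : ℕ) (W : ℕ → L.Fam ι),
    (∀ j < m, L.Is True (W j)) → (∀ j < m, L.Le P (W j) H) → (∀ j < m, ¬ L.Le P H (W j)) →
    (∀ j < m, ∀ M : L.K, P M → ∀ x : ι → L.car M, H M x →
        ∃ y : ι → L.car M, W j M (x - y) ∧ H M y ∧ ∀ i < j, W i M y) → m ≤ n := by
  classical
  obtain ⟨n, hn⟩ := Pool.Agent.VMF.H31.thm_GLD (Lat L P H hH) (no_coind hT hH)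
  refine ⟨n, fun m W h0 h1 h2 h3 => ?_⟩
  let W' : ℕ → Lat L P H hH := fun j =>
    if hj : j < m then mkL hH (W j) (h0 j hj) (h1 j hj) else ⊤
  have hW : ∀ j, (hj : j < m) → W' j = mkL hH (W j) (h0 j hj) (h1 j hj) :=
    fun j hj => dif_pos hj
  refine hn m W' (fun j hj h => ?_) (fun j hj => ?_)
  · rw [hW j hj] at h
    exact h2 j hj fun M hM x hx => (fo_mk hM).mp (eq_top_iff'.mp h M hM x hx)
  · rw [coind_iff]
    intro M hM x hx
    obtain ⟨y, h4, h5, h6⟩ := h3 j hj M hM x hx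
    refine ⟨y, ?_, h5, fun i hi => ?_⟩
    · rw [hW j hj]
      exact (fo_mk hM).mpr h4
    · rw [hW i (hi.trans hj)]
      exact (fo_mk hM).mpr (h6 i hi)

end Pool.Agent.AFH
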