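import Pool.Agent.AFH.END

/-!
# Level-one closure of an affine logic, finite index types (helper97)

`L.one` is the logic of the formulas `∃ y ⋀ S(x, y)` with a finite tuple `y` and a set `S` of formulas
of `L`. `Lg.T1n`, `Lg.UMLn` are the hypotheses of the homogeneity theorem for index types `Fin n`.
-/

set_option autoImplicit false
set_option linter.unusedSectionVars false
set_option linter.unusedVariables false

namespace Pool.Agent.AFH

open Set

section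

variable (L : Lg)

/-- a set of families of relations gives a level-one formula -/
theorem one_mk {ι κ : Type} [Finite κ] (h : Prop) (T : L.Fam (ι ⊕ κ) → Prop)
    [Finite ι] (hT : ∀ G, T G → L.Is h G) :
    ∃ V : (k : ℕ) × Set (L.A (ι ⊕ Fin k)), (h → ∀ φ ∈ V.2, L.hom φ) ∧
      ∀ (M : L.K) (x : ι → L.car M), (∃ y : Fin V.1 → L.car M, ∀ φ ∈ V.2,
        L.S φ M (Sum.elim x y)) ↔ ∃ y : κ → L.car M, ∀ G, T G → G M (Sum.elim x y) := by
  obtain ⟨n, ⟨e⟩⟩ := Finite.exists_equiv_fin κ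
  refine ⟨⟨n, {φ | (h → L.hom φ) ∧ ∃ G, T G ∧ ∀ (M : L.K) (x : ι ⊕ Fin n → L.car M),
    L.S φ M x ↔ G M (x ∘ Sum.map id e)}⟩, fun h0 φ hφ => hφ.1 h0, fun M x => ?_⟩
  have e1 : ∀ y : Fin n → L.car M, (Sum.elim x y : ι ⊕ Fin n → L.car M) ∘ Sum.map id e =
      Sum.elim x (y ∘ e) := by
    intro y
    funext i
    rcases i with i | i <;> rfl
  constructor
  · rintro ⟨y, hy⟩
    refine ⟨y ∘ e, fun G hG => ?_⟩
    obtain ⟨φ, hφ1, hφ2⟩ := (hT G hG).comap (Sum.map id e : ι ⊕ κ → ι ⊕ Fin n)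
    have h1 := hy φ ⟨hφ1, G, hG, fun M x => (hφ2 M x).symm⟩
    rw [← hφ2, e1] at h1
    exact h1
  · rintro ⟨y, hy⟩
    refine ⟨y ∘ e.symm, ?_⟩
    rintro φ ⟨-, G, hG, h2⟩
    rw [h2, e1]
    have e2 : (y ∘ e.symm) ∘ e = y := by
      funext i
      simp
    rw [e2]
    exact hy G hG

/-- the logic of the formulas `∃ y ⋀ S(x, y)` -/
def Lg.one : Lg where
  K := L.K
  car := L.car
  grp := L.grp
  A := fun ι => (k : ℕ) × Set (L.A (ι ⊕ Fin k))
  S := fun V M x => ∃ y : Fin V.1 → L.car M, ∀ φ ∈ V.2, L.S φ M (Sum.elim x y)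
  hom := fun V => ∀ φ ∈ V.2, L.hom φ
  cos := by
    rintro ι _ D M x y z ⟨x', hx⟩ ⟨y', hy⟩ ⟨z', hz⟩
    refine ⟨x' - y' + z', fun φ hφ => ?_⟩
    rw [← elim_add, ← elim_sub]
    exact L.cos φ M _ _ _ (hx φ hφ) (hy φ hφ) (hz φ hφ)
  zero := by
    intro ι _ D M hD
    refine ⟨0, fun φ hφ => ?_⟩
    have e : (Sum.elim 0 0 : ι ⊕ Fin D.1 → L.car M) = 0 := by
      funext i
      rcases i with i | i <;> rfl
    rw [e]
    exact L.zero φ M (hD φ hφ)
  dif := by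
    intro ι _ D
    obtain ⟨V, h1, h2⟩ := one_mk L (ι := ι) (κ := Fin D.1) True
      (fun G => L.Is True G ∧ ∃ φ ∈ D.2, ∀ (M : L.K) (x y : ι ⊕ Fin D.1 → L.car M), L.S φ M x →
        (L.S φ M y ↔ G M (y - x))) (fun G hG => hG.1)
    refine ⟨V, h1 trivial, fun M x x' hx => ?_⟩
    rw [h2]
    obtain ⟨y, hy⟩ := hx
    constructor
    · rintro ⟨y', hy'⟩
      refine ⟨y' - y, ?_⟩
      rintro G ⟨-, φ, hφ, hG⟩
      rw [← elim_sub]
      exact (hG M _ _ (hy φ hφ)).mp (hy' φ hφ)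
    · rintro ⟨z, hz⟩
      refine ⟨z + y, fun φ hφ => ?_⟩
      obtain ⟨E, hE, hE'⟩ := L.dif φ
      have h3 := hz (fun M x => L.S E M x) ⟨⟨E, fun _ => hE, fun _ _ => Iff.rfl⟩, φ, hφ, hE'⟩
      rw [hE' M _ _ (hy φ hφ), elim_sub, add_sub_cancel_right]
      exact h3
  tru := by
    intro ι _
    exact ⟨⟨0, ∅⟩, fun φ hφ => absurd hφ (Set.notMem_empty φ), fun M x =>
      ⟨0, fun φ hφ => absurd hφ (Set.notMem_empty φ)⟩⟩
  eqz := by
    intro ι _
    obtain ⟨V, h1, h2⟩ := one_mk L (ι := ι) (κ := Fin 0) True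
      (fun G => G = fun (M : L.K) (x : ι ⊕ Fin 0 → L.car M) => (x ∘ Sum.inl : ι → L.car M) = 0)
      (by
        rintro G rfl
        exact (L.is_zero True).comap Sum.inl)
    refine ⟨V, h1 trivial, fun M x => (h2 M x).trans ?_⟩
    constructor
    · rintro ⟨y, hy⟩
      exact hy _ rfl
    · rintro rfl
      refine ⟨0, ?_⟩
      rintro G rfl
      rfl
  and := by
    intro ι _ D E
    obtain ⟨V, h1, h2⟩ := one_mk L (ι := ι) (κ := Fin D.1 ⊕ Fin E.1)
      ((∀ φ ∈ D.2, L.hom φ) ∧ ∀ φ ∈ E.2, L.hom φ)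
      (fun G => (∃ φ ∈ D.2, G = fun (M : L.K) (x : ι ⊕ (Fin D.1 ⊕ Fin E.1) → L.car M) =>
        L.S φ M (x ∘ Sum.map id Sum.inl)) ∨ ∃ φ ∈ E.2, G = fun (M : L.K)
        (x : ι ⊕ (Fin D.1 ⊕ Fin E.1) → L.car M) => L.S φ M (x ∘ Sum.map id Sum.inr)) (by
          rintro G (⟨φ, hφ, rfl⟩ | ⟨φ, hφ, rfl⟩)
          · exact (show L.Is _ (fun (M : L.K) (x : ι ⊕ Fin D.1 → L.car M) => L.S φ M x) from
              ⟨φ, fun h0 => h0.1 φ hφ, fun _ _ => Iff.rfl⟩).comap _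
          · exact (show L.Is _ (fun (M : L.K) (x : ι ⊕ Fin E.1 → L.car M) => L.S φ M x) from
              ⟨φ, fun h0 => h0.2 φ hφ, fun _ _ => Iff.rfl⟩).comap _)
    refine ⟨V, fun hD hE => h1 ⟨hD, hE⟩, fun M x => (h2 M x).trans ?_⟩
    have e1 : ∀ (y : Fin D.1 ⊕ Fin E.1 → L.car M),
        (Sum.elim x y : ι ⊕ (Fin D.1 ⊕ Fin E.1) → L.car M) ∘ Sum.map id Sum.inl =
        Sum.elim x (y ∘ Sum.inl) := by
      intro y
      funext i
      rcases i with i | i <;> rfl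
    have e2 : ∀ (y : Fin D.1 ⊕ Fin E.1 → L.car M),
        (Sum.elim x y : ι ⊕ (Fin D.1 ⊕ Fin E.1) → L.car M) ∘ Sum.map id Sum.inr =
        Sum.elim x (y ∘ Sum.inr) := by
      intro y
      funext i
      rcases i with i | i <;> rfl
    constructor
    · rintro ⟨y, hy⟩
      refine ⟨⟨y ∘ Sum.inl, fun φ hφ => ?_⟩, ⟨y ∘ Sum.inr, fun φ hφ => ?_⟩⟩
      · have h3 := hy _ (Or.inl ⟨φ, hφ, rfl⟩)
        simp only [e1] at h3
        exact h3
      · have h3 := hy _ (Or.inr ⟨φ, hφ, rfl⟩)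
        simp only [e2] at h3
        exact h3
    · rintro ⟨⟨y, hy⟩, ⟨z, hz⟩⟩
      refine ⟨Sum.elim y z, ?_⟩
      rintro G (⟨φ, hφ, rfl⟩ | ⟨φ, hφ, rfl⟩)
      · simp only [e1]
        exact hy φ hφ
      · simp only [e2]
        exact hz φ hφ
  ex := by
    intro ι κ _ _ D
    obtain ⟨V, h1, h2⟩ := one_mk L (ι := ι) (κ := κ ⊕ Fin D.1) (∀ φ ∈ D.2, L.hom φ)
      (fun G => ∃ φ ∈ D.2, G = fun (M : L.K) (x : ι ⊕ (κ ⊕ Fin D.1) → L.car M) =>
        L.S φ M (x ∘ Equiv.sumAssoc ι κ (Fin D.1))) (by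
          rintro G ⟨φ, hφ, rfl⟩
          exact (show L.Is _ (fun (M : L.K) (x : (ι ⊕ κ) ⊕ Fin D.1 → L.car M) => L.S φ M x) from
              ⟨φ, fun h0 => h0 φ hφ, fun _ _ => Iff.rfl⟩).comap _)
    refine ⟨V, h1, fun M x => (h2 M x).trans ?_⟩
    have e1 : ∀ (y : κ → L.car M) (z : Fin D.1 → L.car M),
        (Sum.elim x (Sum.elim y z) : ι ⊕ (κ ⊕ Fin D.1) → L.car M) ∘
          Equiv.sumAssoc ι κ (Fin D.1) = Sum.elim (Sum.elim x y) z := by
      intro y z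
      funext i
      rcases i with (i | i) | i <;> rfl
    constructor
    · rintro ⟨y, hy⟩
      refine ⟨y ∘ Sum.inl, y ∘ Sum.inr, fun φ hφ => ?_⟩
      have h3 := hy _ ⟨φ, hφ, rfl⟩
      have e2 : y = Sum.elim (y ∘ Sum.inl) (y ∘ Sum.inr) := by
        funext i
        rcases i with i | i <;> rfl
      rw [e2] at h3
      simp only [e1] at h3
      exact h3
    · rintro ⟨y, z, hz⟩
      refine ⟨Sum.elim y z, ?_⟩
      rintro G ⟨φ, hφ, rfl⟩
      simp only [e1]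
      exact hz φ hφ
  sub := by
    intro ι κ _ _ D f
    let g : κ ⊕ Fin D.1 → ((ι ⊕ Fin D.1) →₀ ℤ) := Sum.elim (fun k => (f k).mapDomain Sum.inl)
      fun j => Finsupp.single (Sum.inr j) 1
    obtain ⟨V, h1, h2⟩ := one_mk L (ι := ι) (κ := Fin D.1) (∀ φ ∈ D.2, L.hom φ)
      (fun G => ∃ φ ∈ D.2, G = fun (M : L.K) (x : ι ⊕ Fin D.1 → L.car M) =>
        L.S φ M (fun k => Finsupp.linearCombination ℤ x (g k))) (by
          rintro G ⟨φ, hφ, rfl⟩
          exact (show L.Is _ (fun (M : L.K) (x : κ ⊕ Fin D.1 → L.car M) => L.S φ M x) from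
              ⟨φ, fun h0 => h0 φ hφ, fun _ _ => Iff.rfl⟩).sub g)
    refine ⟨V, h1, fun M x => (h2 M x).trans ?_⟩
    have e1 : ∀ (y : Fin D.1 → L.car M),
        (fun k => Finsupp.linearCombination ℤ (Sum.elim x y : ι ⊕ Fin D.1 → L.car M) (g k)) =
        Sum.elim (fun k => Finsupp.linearCombination ℤ x (f k)) y := by
      intro y
      funext i
      rcases i with i | i
      · show Finsupp.linearCombination ℤ (Sum.elim x y : ι ⊕ Fin D.1 → L.car M)
          ((f i).mapDomain Sum.inl) = Finsupp.linearCombination ℤ x (f i)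
        rw [Finsupp.linearCombination_mapDomain]
        rfl
      · show Finsupp.linearCombination ℤ (Sum.elim x y : ι ⊕ Fin D.1 → L.car M)
          (Finsupp.single (Sum.inr i) 1) = y i
        rw [Finsupp.linearCombination_single, one_smul]
        rfl
    refine exists_congr fun y => ?_
    constructor
    · intro hy φ hφ
      have h3 := hy _ ⟨φ, hφ, rfl⟩
      simp only [e1] at h3
      exact h3
    · rintro hy G ⟨φ, hφ, rfl⟩
      simp only [e1]
      exact hy φ hφ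

/-- `L.T1` for the index types `Fin n` -/
def Lg.T1n : Prop :=
  ∀ (m n : ℕ) (E : L.Fam (Fin m)), L.Is False E → ∀ (D : L.Fam (Fin n)) (W : ℕ → L.Fam (Fin n)),
    L.Is True D → (∀ j, L.Is True (W j)) → (∀ j, L.Le (L.NE E) (W j) D) →
    (∀ j, ¬ L.Le (L.NE E) D (W j)) →
    (∀ (j : ℕ) (M : L.K), L.NE E M → ∀ x : Fin n → L.car M, D M x →
        ∃ w : Fin n → L.car M, W j M w ∧ ∀ i < j, W i M (x - w)) → False

/-- `L.UML` for the index types `Fin n` -/
def Lg.UMLn : Prop :=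
  ∀ (M : L.K) (n : ℕ) (a : Fin n → L.car M), ∃ V : L.Fam (Fin n), L.Exact V M a

variable {L}

theorem Lg.T1n.t1 (h : L.T1n) : L.T1 := by
  intro α ι _ _ E hE D W hD hW hle hnle hco
  obtain ⟨m, ⟨e'⟩⟩ := Finite.exists_equiv_fin α
  obtain ⟨n, ⟨e⟩⟩ := Finite.exists_equiv_fin ι
  have hNE : ∀ M : L.K, L.NE (fun M (x : Fin m → L.car M) => E M (x ∘ e')) M ↔ L.NE E M := by
    intro M
    constructor
    · rintro ⟨x, hx⟩
      exact ⟨_, hx⟩
    · rintro ⟨x, hx⟩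
      refine ⟨x ∘ e'.symm, ?_⟩
      have : (x ∘ e'.symm) ∘ e' = x := by
        funext i
        simp
      show E M ((x ∘ e'.symm) ∘ e')
      rw [this]
      exact hx
  have e1 : ∀ {A : Type} (x : ι → A), (x ∘ e.symm) ∘ e = x := by
    intro A x
    funext i
    simp
  refine h m n (fun M x => E M (x ∘ e')) (hE.comap e') (fun M x => D M (x ∘ e))
    (fun j M x => W j M (x ∘ e)) (hD.comap e) (fun j => (hW j).comap e) ?_ ?_ ?_
  · intro j M hM x hx
    exact hle j M ((hNE M).mp hM) _ hx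
  · intro j hj
    refine hnle j fun M hM x hx => ?_
    have h1 := hj M ((hNE M).mpr hM) (x ∘ e.symm)
    simp only [e1] at h1
    exact h1 hx
  · intro j M hM x hx
    obtain ⟨y, h1, h2, h3⟩ := hco j M ((hNE M).mp hM) _ hx
    refine ⟨x - y ∘ e.symm, ?_, fun i hi => ?_⟩
    · show W j M ((x - y ∘ e.symm) ∘ e)
      have h4 : (x - y ∘ e.symm) ∘ e = x ∘ e - y := by
        funext i
        simp
      rw [h4]
      exact h1
    · show W i M ((x - (x - y ∘ e.symm)) ∘ e)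
      have h4 : (x - (x - y ∘ e.symm)) ∘ e = y := by
        funext i
        simp
      rw [h4]
      exact h3 i hi

theorem Lg.UMLn.uml (h : L.UMLn) : L.UML := by
  intro M ι _ a
  obtain ⟨n, ⟨e⟩⟩ := Finite.exists_equiv_fin ι
  obtain ⟨V, hV⟩ := h M n (a ∘ e.symm)
  refine ⟨fun M x => V M (x ∘ e.symm), (exact_ren e.symm V a).mpr hV⟩

end

end Pool.Agent.AFH
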