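import Pool.Agent.AFH.LAT

/-!
# A product of superfluous formulas is superfluous (helper97, after helper65)
-/

set_option autoImplicit false
set_option linter.unusedSectionVars false
set_option linter.unusedVariables false

namespace Pool.Agent.AFH

open Set

variable {L : Lg} {ι : Type} [Finite ι]

/-- the tuple of tuples `u`, as one tuple -/
def fl {ι M : Type} {m : ℕ} (u : Fin m → ι → M) : Fin m × ι → M := fun a => u a.1 a.2

/-- the family which is `v` at `i` and zero elsewhere -/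
def sg {ι M : Type} [AddCommGroup M] {m : ℕ} (i : Fin m) (v : ι → M) : Fin m → ι → M :=
  fun j => if j = i then v else 0

/-- the families after the replacement of the first `k` indices -/
def chi {m : ℕ} (ψ : L.Fam ι) (ψ' : Fin m → L.Fam ι) (k : ℕ) (j : Fin m) : L.Fam ι :=
  if j.val < k then ψ else ψ' j

theorem is_chi {m : ℕ} {ψ : L.Fam ι} {ψ' : Fin m → L.Fam ι} (h : L.Is True ψ)
    (h' : ∀ i, L.Is True (ψ' i)) (k : ℕ) (j : Fin m) : L.Is True (chi ψ ψ' k j) := by
  unfold chi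
  split
  · exact h
  · exact h' j

/-- products of families -/
theorem is_prod {h : Prop} {m : ℕ} {χ : Fin m → L.Fam ι} (hχ : ∀ i, L.Is h (χ i)) :
    L.Is h (fun M (p : Fin m × ι → L.car M) => ∀ j, χ j M (fun a => p (j, a))) :=
  Lg.Is.allFin m (fun j M p => χ j M (fun a => p (j, a)))
    fun j => (hχ j).comap (fun a => (j, a))

/-- products plus a relation -/
theorem is_prodSum {h : Prop} {m : ℕ} {χ : Fin m → L.Fam ι} (hχ : ∀ i, L.Is h (χ i))
    {T : L.Fam (Fin m × ι)} (hT : L.Is h T) :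
    L.Is h (fun M (u : Fin m × ι → L.car M) => ∃ p : Fin m → ι → L.car M,
      (∀ j, χ j M (p j)) ∧ T M (u - fl p)) := by
  refine ((is_prod hχ).sum hT).congr fun M u => ?_
  constructor
  · rintro ⟨p, hp, hL⟩
    exact ⟨fl p, hp, hL⟩
  · rintro ⟨p, hp, hL⟩
    exact ⟨fun j a => p (j, a), hp, hL⟩

theorem SUP_is {m : ℕ} {H : L.Fam ι} (hH : L.Is True H) {χ : Fin m → L.Fam ι}
    (hχ : ∀ i, L.Is True (χ i)) {T : L.Fam (Fin m × ι)} (hT : L.Is True T) (i : Fin m) :
    L.Is True (fun M (x : ι → L.car M) => H M x ∧ ∃ p : Fin m → ι → L.car M,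
      (∀ j, χ j M (p j)) ∧ T M (fl (sg i x) - fl p)) := by
  refine hH.and ?_
  refine ((is_prodSum hχ hT).sub (ι := ι)
    (fun b => if b.1 = i then Finsupp.single b.2 (1 : ℤ) else 0)).congr ?_
  intro M x
  have h3 : (fun b : Fin m × ι => Finsupp.linearCombination ℤ x
      (if b.1 = i then Finsupp.single b.2 (1 : ℤ) else 0)) = fl (sg i x) := by
    funext b
    by_cases hb : b.1 = i
    · simp [sg, fl, hb]
    · simp [sg, fl, hb]
  rw [h3]

/-- a product of superfluous level-one families is superfluous -/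
theorem Lg.sup_fam {P : L.K → Prop} {ψ H : L.Fam ι} (hψ : L.Is True ψ) (hH : L.Is True H)
    (hψH : L.Le P ψ H) (hol : L.Hollow P ψ H) {m : ℕ} {ψ' : Fin m → L.Fam ι}
    (h0 : ∀ i, L.Is True (ψ' i)) (h1 : ∀ i, L.Le P ψ (ψ' i)) (h2 : ∀ i, L.Le P (ψ' i) H)
    (h3 : ∀ i, ¬ L.Le P H (ψ' i)) {T : L.Fam (Fin m × ι)} (hT : L.Is True T)
    (hL : ∀ M : L.K, P M → ∀ u : Fin m → ι → L.car M, (∀ i, H M (u i)) →
      ∃ p : Fin m → ι → L.car M, (∀ i, ψ' i M (p i)) ∧ T M (fl u - fl p)) :
    ∀ M : L.K, P M → ∀ u : Fin m → ι → L.car M, (∀ i, H M (u i)) →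
      ∃ p : Fin m → ι → L.car M, (∀ i, ψ M (p i)) ∧ T M (fl u - fl p) := by
  have key : ∀ k : ℕ, k ≤ m → ∀ M : L.K, P M →
      ∀ u : Fin m → ι → L.car M, (∀ i, H M (u i)) → ∃ p : Fin m → ι → L.car M,
        (∀ i, chi ψ ψ' k i M (p i)) ∧ T M (fl u - fl p) := by
    intro k
    induction k with
    | zero =>
      intro _ M hM u hu
      obtain ⟨p, hp, hp'⟩ := hL M hM u hu
      refine ⟨p, fun i => ?_, hp'⟩
      have : chi ψ ψ' 0 i = ψ' i := if_neg (Nat.not_lt_zero _)
      rw [this]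
      exact hp i
    | succ k ih =>
      intro hk
      have hk' : k < m := hk
      have ih' := ih (le_of_lt hk')
      have hα := SUP_is hH (is_chi hψ h0 (k + 1)) hT (⟨k, hk'⟩ : Fin m)
      have hchi_i : chi ψ ψ' (k + 1) (⟨k, hk'⟩ : Fin m) = ψ := if_pos (Nat.lt_succ_self k)
      have hchi_i' : chi ψ ψ' k (⟨k, hk'⟩ : Fin m) = ψ' ⟨k, hk'⟩ := if_neg (lt_irrefl k)
      have hchi_ne : ∀ j : Fin m, j ≠ ⟨k, hk'⟩ → chi ψ ψ' (k + 1) j = chi ψ ψ' k j := by
        intro j hj
        have hj' : j.val ≠ k := fun h => hj (Fin.ext h)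
        by_cases hjk : j.val < k
        · rw [chi, chi, if_pos hjk, if_pos (Nat.lt_succ_of_lt hjk)]
        · rw [chi, chi, if_neg hjk, if_neg]
          intro h
          exact hjk (lt_of_le_of_ne (Nat.lt_succ_iff.1 h) hj')
      have hb1 : L.Le P ψ (fun M (x : ι → L.car M) => H M x ∧ ∃ p : Fin m → ι → L.car M,
          (∀ j, chi ψ ψ' (k + 1) j M (p j)) ∧
            T M (fl (sg (⟨k, hk'⟩ : Fin m) x) - fl p)) := by
        intro M hM x hx
        refine ⟨hψH M hM x hx, sg ⟨k, hk'⟩ x, fun j => ?_, ?_⟩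
        · by_cases hj : j = ⟨k, hk'⟩
          · subst hj
            rw [hchi_i, sg, if_pos rfl]
            exact hx
          · rw [sg, if_neg hj]
            exact (is_chi hψ h0 (k + 1) j).zero M
        · rw [sub_self]
          exact hT.zero M
      have hb3 : L.LeSum P H (fun M (x : ι → L.car M) => H M x ∧
          ∃ p : Fin m → ι → L.car M, (∀ j, chi ψ ψ' (k + 1) j M (p j)) ∧
            T M (fl (sg (⟨k, hk'⟩ : Fin m) x) - fl p)) (ψ' ⟨k, hk'⟩) := by
        intro M hM u hu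
        obtain ⟨p, hp, hp'⟩ := ih' M hM (sg ⟨k, hk'⟩ u) (fun j => by
          by_cases hj : j = ⟨k, hk'⟩
          · rw [sg, if_pos hj]
            exact hu
          · rw [sg, if_neg hj]
            exact hH.zero M)
        have hv := hp ⟨k, hk'⟩
        rw [hchi_i'] at hv
        refine ⟨u - p ⟨k, hk'⟩, ?_, ?_⟩
        · refine ⟨?_, fun j => if j = ⟨k, hk'⟩ then 0 else p j, fun j => ?_, ?_⟩
          · exact hH.sb hu (h2 _ M hM _ hv)
          · change chi ψ ψ' (k + 1) j M (if j = ⟨k, hk'⟩ then 0 else p j)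
            by_cases hj : j = ⟨k, hk'⟩
            · rw [if_pos hj]
              exact (is_chi hψ h0 (k + 1) j).zero M
            · rw [if_neg hj, hchi_ne j hj]
              exact hp j
          · have h4 : fl (sg ⟨k, hk'⟩ (u - p ⟨k, hk'⟩)) -
                fl (fun j => if j = ⟨k, hk'⟩ then 0 else p j) =
                fl (sg ⟨k, hk'⟩ u) - fl p := by
              funext a
              show sg ⟨k, hk'⟩ (u - p ⟨k, hk'⟩) a.1 a.2 -
                (if a.1 = ⟨k, hk'⟩ then 0 else p a.1 : ι → L.car M) a.2 =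
                sg ⟨k, hk'⟩ u a.1 a.2 - p a.1 a.2
              by_cases ha : a.1 = ⟨k, hk'⟩
              · rw [sg, sg, if_pos ha, if_pos ha, if_pos ha, ha]
                simp
              · rw [sg, sg, if_neg ha, if_neg ha, if_neg ha]
            rw [h4]
            exact hp'
        · rw [sub_sub_cancel]
          exact hv
      have hle : L.Le P H (fun M (x : ι → L.car M) => H M x ∧ ∃ p : Fin m → ι → L.car M,
          (∀ j, chi ψ ψ' (k + 1) j M (p j)) ∧
            T M (fl (sg (⟨k, hk'⟩ : Fin m) x) - fl p)) := by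
        rcases hol _ (ψ' ⟨k, hk'⟩) hα (h0 _) hb1 (fun M hM x hx => hx.1) (h1 _) (h2 _) hb3
          with h | h
        · exact h
        · exact absurd h (h3 _)
      intro M hM u hu
      obtain ⟨p, hp, hp'⟩ := ih' M hM u hu
      have hv := hp ⟨k, hk'⟩
      rw [hchi_i'] at hv
      obtain ⟨-, p1, hp1, hp1'⟩ := hle M hM _ (h2 _ M hM _ hv)
      refine ⟨fun j => (if j = ⟨k, hk'⟩ then 0 else p j) + p1 j, fun j => ?_, ?_⟩
      · change chi ψ ψ' (k + 1) j M ((if j = ⟨k, hk'⟩ then 0 else p j) + p1 j)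
        by_cases hj : j = ⟨k, hk'⟩
        · rw [if_pos hj, zero_add]
          exact hp1 j
        · rw [if_neg hj]
          refine (is_chi hψ h0 (k + 1) j).add ?_ (hp1 j)
          rw [hchi_ne j hj]
          exact hp j
      · have h6 : fl u - fl (fun j => (if j = ⟨k, hk'⟩ then 0 else p j) + p1 j) =
            (fl u - fl p) + (fl (sg ⟨k, hk'⟩ (p ⟨k, hk'⟩)) - fl p1) := by
          funext a
          show u a.1 a.2 - ((if a.1 = ⟨k, hk'⟩ then 0 else p a.1 : ι → L.car M) + p1 a.1) a.2 =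
            (u a.1 a.2 - p a.1 a.2) + (sg ⟨k, hk'⟩ (p ⟨k, hk'⟩) a.1 a.2 - p1 a.1 a.2)
          rw [Pi.add_apply]
          by_cases ha : a.1 = ⟨k, hk'⟩
          · rw [sg, if_pos ha, if_pos ha, ha]
            simp
          · rw [sg, if_neg ha, if_neg ha]
            simp only [Pi.zero_apply]
            abel
        rw [h6]
        exact hT.add hp' hp1'
  intro M hM u hu
  obtain ⟨p, hp, hp'⟩ := key m le_rfl M hM u hu
  refine ⟨p, fun i => ?_, hp'⟩
  have h7 : chi ψ ψ' m i = ψ := if_pos i.isLt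
  have h8 := hp i
  rw [h7] at h8
  exact h8

end Pool.Agent.AFH
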